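import Pool.Agent.H789R2.AN.Span

/-!
# Closed sets saturated by the unstable sets of hyperbolic systems whose unstable spaces are close
to a given field of subspaces
-/

set_option autoImplicit false

open Filter Topology Set Metric
open scoped InnerProductSpace

namespace Pool.Agent.V5helper18.Mb

open Pool.Agent.H721R2 Pool.Agent.H789R2.AN

variable {X E : Type*} [MetricSpace X] [NormedAddCommGroup E] [InnerProductSpace ℝ E]

/-- The ambient data: an embedding, its tangent spaces, and a closed field of subspaces. -/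
structure Amb (e : X → E) (T F : X → Submodule ℝ E) : Prop where
  iso : ∀ x y, dist x y = ‖e x - e y‖
  T1 : ∀ η > 0, ∃ r > 0, ∀ x y, dist x y < r → ∃ w ∈ T x, ‖e y - e x - w‖ ≤ η * dist x y
  T2 : ∀ η > 0, ∃ r > 0, ∀ x y, dist x y < r → ∀ w ∈ T x, ∃ w' ∈ T y, ‖w - w'‖ ≤ η * ‖w‖
  le : ∀ x, F x ≤ T x
  cl : ∀ (x : ℕ → X) (w : ℕ → E) (x₀ : X) (w₀ : E), (∀ n, w n ∈ F (x n)) →
    Tendsto x atTop (𝓝 x₀) → Tendsto w atTop (𝓝 w₀) → w₀ ∈ F x₀

/-- `S` has its unstable spaces `ε`-close to `F` and its stable spaces `δ`-away from `F`. -/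
structure Near (e : X → E) (T F : X → Submodule ℝ E) (δ ε : ℝ) (S : HypSys X E) : Prop where
  eS : ∀ x, S.e x = e x
  sup : ∀ x, S.Vs x ⊔ S.Vu x = T x
  av : ∀ z, ∀ s ∈ S.Vs z, ∀ x, dist z x < δ → ∀ w ∈ F x, δ * ‖s‖ ≤ ‖s - w‖
  cl : ∀ z, ∀ u ∈ S.Vu z, ∃ x, ∃ w ∈ F x, dist z x ≤ ε ∧ ‖u - w‖ ≤ ε * ‖u‖

variable {e : X → E} {T F : X → Submodule ℝ E} {δ : ℝ}

theorem Near.angle {ε : ℝ} {S : HypSys X E} (h : Near e T F δ ε S) (hδ : 0 < δ) (hδ1 : δ ≤ 1)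
    (hε : ε ≤ δ / 2) (hε0 : 0 ≤ ε) {z : X} {s u : E} (hs : s ∈ S.Vs z) (hu : u ∈ S.Vu z) :
    δ * ‖s‖ ≤ 3 * ‖s + u‖ := by
  obtain ⟨x, w, hw, h1, h2⟩ := h.cl z u hu
  have h3 := h.av z s hs x (by linarith) (-w) (Submodule.neg_mem _ hw)
  rw [sub_neg_eq_add] at h3
  have h4 : ‖s + w‖ ≤ ‖s + u‖ + ‖u - w‖ := by
    have : s + w = (s + u) - (u - w) := by abel
    rw [this]
    exact norm_sub_le _ _
  have h5 : ‖u‖ ≤ ‖s + u‖ + ‖s‖ := by
    have h6 := norm_sub_le (s + u) s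
    rwa [add_sub_cancel_left] at h6
  have h6 : ε * ‖u‖ ≤ ε * (‖s + u‖ + ‖s‖) := mul_le_mul_of_nonneg_left h5 hε0
  have h7 : ε * ‖s‖ ≤ δ / 2 * ‖s‖ := mul_le_mul_of_nonneg_right hε (norm_nonneg _)
  have h8 : ε * ‖s + u‖ ≤ 1 / 2 * ‖s + u‖ :=
    mul_le_mul_of_nonneg_right (by linarith) (norm_nonneg _)
  nlinarith [norm_nonneg s, norm_nonneg (s + u)]

/-- A sequence of systems approaching `F`. -/
structure Sq (e : X → E) (T F : X → Submodule ℝ E) (δ : ℝ) (S : ℕ → HypSys X E) (ε : ℕ → ℝ) :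
    Prop where
  amb : Amb e T F
  pos : 0 < δ
  le1 : δ ≤ 1
  near : ∀ n, Near e T F δ (ε n) (S n)
  nonneg : ∀ n, 0 ≤ ε n
  half : ∀ n, ε n ≤ δ / 2
  lim : Tendsto ε atTop (𝓝 0)

theorem Sq.sub {S : ℕ → HypSys X E} {ε : ℕ → ℝ} (h : Sq e T F δ S ε) (k : ℕ → ℕ)
    (hk : Tendsto k atTop atTop) : Sq e T F δ (fun n => S (k n)) (fun n => ε (k n)) :=
  ⟨h.amb, h.pos, h.le1, fun n => h.near _, fun n => h.nonneg _, fun n => h.half _,
    h.lim.comp hk⟩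

theorem Sq.u_lim {S : ℕ → HypSys X E} {ε : ℕ → ℝ} (h : Sq e T F δ S ε) {z : ℕ → X} {x₀ : X}
    {u : ℕ → E} {u₀ : E} (hz : Tendsto z atTop (𝓝 x₀)) (hu : ∀ n, u n ∈ (S n).Vu (z n))
    (hlim : Tendsto u atTop (𝓝 u₀)) : u₀ ∈ F x₀ := by
  have h1 : ∀ n, ∃ x, ∃ w ∈ F x, dist (z n) x ≤ ε n ∧ ‖u n - w‖ ≤ ε n * ‖u n‖ :=
    fun n => (h.near n).cl _ _ (hu n)
  choose x w hw hx huw using h1
  refine h.amb.cl x w x₀ u₀ hw ?_ ?_
  · rw [tendsto_iff_dist_tendsto_zero]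
    have h2 : Tendsto (fun n => ε n + dist (z n) x₀) atTop (𝓝 (0 + 0)) :=
      h.lim.add (tendsto_iff_dist_tendsto_zero.1 hz)
    rw [add_zero] at h2
    refine squeeze_zero (fun _ => dist_nonneg) (fun n => ?_) h2
    have h3 := dist_triangle_left (x n) x₀ (z n)
    have h4 := hx n
    linarith
  · rw [tendsto_iff_dist_tendsto_zero]
    have h2 : Tendsto (fun n => ε n * ‖u n‖ + dist (u n) u₀) atTop (𝓝 (0 * ‖u₀‖ + 0)) :=
      (h.lim.mul hlim.norm).add (tendsto_iff_dist_tendsto_zero.1 hlim)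
    rw [zero_mul, add_zero] at h2
    refine squeeze_zero (fun _ => dist_nonneg) (fun n => ?_) h2
    have h3 := dist_triangle_left (w n) u₀ (u n)
    have h4 := huw n
    rw [← dist_eq_norm] at h4
    linarith

theorem Sq.dec_lim [FiniteDimensional ℝ E] {S : ℕ → HypSys X E} {ε : ℕ → ℝ}
    (h : Sq e T F δ S ε) {z : ℕ → X} {x₀ : X} {s u : ℕ → E} {v : E}
    (hz : Tendsto z atTop (𝓝 x₀)) (hs : ∀ n, s n ∈ (S n).Vs (z n))
    (hu : ∀ n, u n ∈ (S n).Vu (z n)) (hsu : Tendsto (fun n => s n + u n) atTop (𝓝 v))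
    (hv : v ∈ F x₀) : Tendsto s atTop (𝓝 0) := by
  have hδ := h.pos
  refine tendsto_of_subseq_tendsto fun ns hns => ?_
  obtain ⟨R, hR⟩ : ∃ R : ℝ, ∀ n, ‖s n + u n‖ ≤ R := by
    obtain ⟨R, hR⟩ := (Metric.isBounded_range_of_tendsto _ hsu).exists_norm_le
    exact ⟨R, fun n => hR _ (mem_range_self n)⟩
  have hb : ∀ n, s (ns n) ∈ closedBall (0 : E) (3 * R / δ) := by
    intro n
    rw [mem_closedBall_zero_iff, le_div_iff₀ hδ]
    have h1 := (h.near (ns n)).angle hδ h.le1 (h.half _) (h.nonneg _) (hs (ns n)) (hu (ns n))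
    have h2 := hR (ns n)
    linarith
  obtain ⟨a, -, φ, hφ, ha⟩ := tendsto_subseq_of_bounded isBounded_closedBall hb
  refine ⟨φ, ?_⟩
  have hk : Tendsto (fun n => ns (φ n)) atTop atTop := hns.comp hφ.tendsto_atTop
  have hu' : Tendsto (fun n => u (ns (φ n))) atTop (𝓝 (v - a)) := by
    have h1 := (hsu.comp hk).sub ha
    refine h1.congr fun n => ?_
    show s (ns (φ n)) + u (ns (φ n)) - s (ns (φ n)) = _
    rw [add_sub_cancel_left]
  have h1 : v - a ∈ F x₀ := (h.sub _ hk).u_lim (hz.comp hk) (fun n => hu _) hu'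
  have h2 : a ∈ F x₀ := by
    have := Submodule.sub_mem _ hv h1
    rwa [sub_sub_cancel] at this
  have h3 : ∀ᶠ n in atTop, δ * ‖s (ns (φ n))‖ ≤ ‖s (ns (φ n)) - a‖ := by
    have h4 : ∀ᶠ n in atTop, dist (z (ns (φ n))) x₀ < δ :=
      (tendsto_order.1 (tendsto_iff_dist_tendsto_zero.1 (hz.comp hk))).2 δ hδ
    filter_upwards [h4] with n hn
    exact (h.near _).av _ _ (hs _) x₀ hn a h2
  have h4 : Tendsto (fun n => δ * ‖s (ns (φ n))‖) atTop (𝓝 (δ * ‖a‖)) := (ha.norm).const_mul δ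
  have h5 : Tendsto (fun n => ‖s (ns (φ n)) - a‖) atTop (𝓝 ‖a - a‖) :=
    (ha.sub tendsto_const_nhds).norm
  have h6 := le_of_tendsto_of_tendsto h4 h5 h3
  rw [sub_self, norm_zero] at h6
  have h7 : ‖a‖ = 0 := by
    have := norm_nonneg a
    nlinarith
  rw [norm_eq_zero] at h7
  rw [← h7]
  exact ha

theorem Sq.near_vec [FiniteDimensional ℝ E] {S : ℕ → HypSys X E} {ε : ℕ → ℝ}
    (h : Sq e T F δ S ε) {x₀ : X} {v : E} (hv : v ∈ F x₀) {ω : ℝ} (hω : 0 < ω) :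
    ∃ ρ > 0, ∃ K : ℕ, ∀ k ≥ K, ∀ z, dist z x₀ < ρ → ∃ u ∈ (S k).Vu z, ‖v - u‖ ≤ ω := by
  by_contra hcon
  push Not at hcon
  have hr : ∀ n : ℕ, ∃ r > 0, ∀ x y, dist x y < r → ∀ w ∈ T x, ∃ w' ∈ T y,
      ‖w - w'‖ ≤ 1 / ((n : ℝ) + 1) * ‖w‖ := fun n => h.amb.T2 _ (by positivity)
  choose r hr0 hr using hr
  have hsel : ∀ n : ℕ, ∃ k ≥ n, ∃ z, dist z x₀ < min (1 / ((n : ℝ) + 1)) (r n) ∧
      ∀ u ∈ (S k).Vu z, ω < ‖v - u‖ := fun n => hcon _ (lt_min (by positivity) (hr0 n)) n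
  choose k hk z hz hbad using hsel
  have hkt : Tendsto k atTop atTop := tendsto_atTop_mono hk tendsto_id
  have h0 := tendsto_one_div_add_atTop_nhds_zero_nat (𝕜 := ℝ)
  have hzt : Tendsto z atTop (𝓝 x₀) := by
    rw [tendsto_iff_dist_tendsto_zero]
    exact squeeze_zero (fun _ => dist_nonneg) (fun n => ((hz n).trans_le (min_le_left _ _)).le) h0
  have hv' : ∀ n, ∃ w' ∈ T (z n), ‖v - w'‖ ≤ 1 / ((n : ℝ) + 1) * ‖v‖ := fun n =>
    hr n x₀ (z n) (by rw [dist_comm]; exact (hz n).trans_le (min_le_right _ _)) v (h.amb.le _ hv)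
  choose w hw hvw using hv'
  have hdec : ∀ n, ∃ s ∈ (S (k n)).Vs (z n), ∃ u ∈ (S (k n)).Vu (z n), s + u = w n := fun n => by
    have := hw n
    rw [← (h.near (k n)).sup, Submodule.mem_sup] at this
    exact this
  choose s hs u hu hsu using hdec
  have hwt : Tendsto w atTop (𝓝 v) := by
    rw [tendsto_iff_dist_tendsto_zero]
    have h1 : Tendsto (fun n : ℕ => 1 / ((n : ℝ) + 1) * ‖v‖) atTop (𝓝 (0 * ‖v‖)) :=
      h0.mul_const _
    rw [zero_mul] at h1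
    refine squeeze_zero (fun _ => dist_nonneg) (fun n => ?_) h1
    rw [dist_comm, dist_eq_norm]
    exact hvw n
  have hst : Tendsto s atTop (𝓝 0) := (h.sub k hkt).dec_lim hzt hs hu
    (hwt.congr fun n => (hsu n).symm) hv
  have hut : Tendsto u atTop (𝓝 (v - 0)) := by
    refine (hwt.sub hst).congr fun n => ?_
    rw [← hsu n, add_sub_cancel_left]
  rw [sub_zero] at hut
  have h2 : Tendsto (fun n => ‖v - u n‖) atTop (𝓝 ‖v - v‖) := (tendsto_const_nhds.sub hut).norm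
  rw [sub_self, norm_zero] at h2
  obtain ⟨n, hn⟩ := ((tendsto_order.1 h2).2 ω hω).exists
  exact lt_asymm hn (hbad n _ (hu n))

section normal

variable [CompactSpace X]

/-- Normal vectors of saturated sets. -/
theorem normal (S : HypSys X E) {A : Set X} (hA : ∀ x ∈ A, ∀ y, WS S.g.symm x y → y ∈ A) {z : X}
    (hz : z ∈ A) (q : E) (hq : ∀ z' ∈ A, ‖q - S.e z‖ ≤ ‖q - S.e z'‖) {u : E} (hu : u ∈ S.Vu z) :
    ⟪q - S.e z, u⟫_ℝ = 0 := by
  have hm : ∀ z' ∈ A, ‖q - S.e z‖ ≤ ‖q - S.e z - (S.e z' - S.e z)‖ := fun z' hz' => by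
    rw [sub_sub_sub_cancel_right]
    exact hq z' hz'
  have h1 := inner_le S hA hz _ hm hu
  have h2 := inner_le S hA hz _ hm (Submodule.neg_mem _ hu)
  rw [inner_neg_right] at h2
  linarith

end normal

end Pool.Agent.V5helper18.Mb
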