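import Pool.Agent.V5helper18.Mb.A

/-!
# Viability of limits of saturated sets, and separation
-/

set_option autoImplicit false

open Filter Topology Set Metric
open scoped InnerProductSpace

namespace Pool.Agent.V5helper18.Mb

open Pool.Agent.H721R2 Pool.Agent.H789R2.AN

variable {X E : Type*} [MetricSpace X] [CompactSpace X] [NormedAddCommGroup E]
  [InnerProductSpace ℝ E] {e : X → E} {T F : X → Submodule ℝ E} {δ : ℝ}

/-- discrete comparison -/
theorem steps {φ : ℕ → ℝ} {a ω h V : ℝ} (ha : 0 ≤ a) (hω : 0 ≤ ω) (hh : 0 ≤ h) (hV : 0 ≤ V)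
    (h0 : φ 0 ≤ a) (hpos : ∀ i, 0 ≤ φ i) (N : ℕ)
    (hstep : ∀ i < N, φ (i + 1) ^ 2 ≤ φ i ^ 2 + 2 * h * ω * φ i + h ^ 2 * V ^ 2) :
    ∀ i ≤ N, φ i ≤ a + i * (h * ω) + √i * (h * V) := by
  intro i
  induction i with
  | zero => intro _; simpa using h0
  | succ i ih =>
    intro hi
    have h1 := ih (by omega)
    have h2 := hstep i (by omega)
    have h3 := hpos i
    set c := a + i * (h * ω) with hc
    have hc0 : 0 ≤ c := by positivity
    set c' := a + ((i + 1 : ℕ) : ℝ) * (h * ω) with hc'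
    have hcc : c' = c + h * ω := by rw [hc', hc]; push_cast; ring
    have hd : 0 ≤ h * ω := by positivity
    have hk : 0 ≤ h * V := by positivity
    have hsi : 0 ≤ √(i : ℝ) := Real.sqrt_nonneg _
    have hss : √(i : ℝ) ≤ √((i + 1 : ℕ) : ℝ) := Real.sqrt_le_sqrt (by push_cast; linarith)
    have e1 : √(i : ℝ) ^ 2 = i := Real.sq_sqrt (by positivity)
    have e2 : √((i + 1 : ℕ) : ℝ) ^ 2 = i + 1 := by
      rw [Real.sq_sqrt (by positivity)]; push_cast; ring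
    set p := √(i : ℝ) with hp
    set q := √((i + 1 : ℕ) : ℝ) with hq
    have hq0 : 0 ≤ q := hsi.trans hss
    refine abs_le_of_sq_le_sq' ?_ (by positivity) |>.2
    have h4 : φ i ^ 2 + 2 * h * ω * φ i + h ^ 2 * V ^ 2 ≤
        (c + h * ω + p * (h * V)) ^ 2 + (h * V) ^ 2 := by
      have h5 : (φ i + h * ω) ^ 2 ≤ (c + h * ω + p * (h * V)) ^ 2 := by
        apply pow_le_pow_left₀ (by positivity)
        linarith
      nlinarith [sq_nonneg (h * ω)]
    refine h2.trans (h4.trans ?_)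
    rw [hcc]
    have h6 : (c + h * ω + p * (h * V)) ^ 2 + (h * V) ^ 2 =
        (c + h * ω) ^ 2 + 2 * (c + h * ω) * (h * V) * p + (p ^ 2 + 1) * (h * V) ^ 2 := by ring
    have h7 : (c + h * ω + q * (h * V)) ^ 2 =
        (c + h * ω) ^ 2 + 2 * (c + h * ω) * (h * V) * q + q ^ 2 * (h * V) ^ 2 := by ring
    rw [h6, h7, e1, e2]
    have h8 : 2 * (c + h * ω) * (h * V) * p ≤ 2 * (c + h * ω) * (h * V) * q :=
      mul_le_mul_of_nonneg_left hss (by positivity)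
    linarith

/-- A set with normals orthogonal to spaces near `v` is approached in the direction `v`. -/
theorem follow_aux (hiso : ∀ x y, dist x y = ‖e x - e y‖) {A : Set X} (hAc : IsClosed A)
    (Vu : X → Submodule ℝ E)
    (hnor : ∀ z ∈ A, ∀ q : E, (∀ z' ∈ A, ‖q - e z‖ ≤ ‖q - e z'‖) → ∀ u ∈ Vu z,
      ⟪q - e z, u⟫_ℝ = 0)
    {x₀ : X} {v : E} {ω ρ : ℝ} (hω : 0 < ω) (hρ : 0 < ρ)
    (hv : ∀ z, dist z x₀ < ρ → ∃ u ∈ Vu z, ‖v - u‖ ≤ ω) {x : X} (hx : x ∈ A)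
    (hxx : dist x x₀ ≤ ρ / 4) {t : ℝ} (ht0 : 0 ≤ t) (ht : t ≤ ρ / (4 * (‖v‖ + 1))) :
    ∃ z ∈ A, ‖e z - e x₀ - t • v‖ ≤ dist x x₀ + 2 * ω * t := by
  have hcomp : IsCompact A := hAc.isCompact
  have hecont : Continuous e := by
    rw [Metric.continuous_iff]
    intro b ε hε
    exact ⟨ε, hε, fun a ha => by rwa [dist_eq_norm, ← hiso]⟩
  have hnear : ∀ q : E, ∃ z ∈ A, ∀ z' ∈ A, ‖q - e z‖ ≤ ‖q - e z'‖ := fun q => by
    obtain ⟨z, hz, hz'⟩ := hcomp.exists_isMinOn ⟨x, hx⟩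
      (f := fun z => ‖q - e z‖) (by fun_prop)
    exact ⟨z, hz, fun z' h => hz' h⟩
  choose ζ hζ hζm using hnear
  have hV := norm_nonneg v
  obtain ⟨N, hN⟩ := exists_nat_gt ((‖v‖ / ω) ^ 2 + 1)
  have hN1 : (1 : ℝ) < N := by
    have : 0 ≤ (‖v‖ / ω) ^ 2 := by positivity
    linarith
  have hN0 : (0 : ℝ) < N := by linarith
  set h := t / N with hh
  have hh0 : 0 ≤ h := by positivity
  have htv : t * (4 * (‖v‖ + 1)) ≤ ρ := by
    rwa [le_div_iff₀ (by positivity)] at ht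
  let q : ℕ → E := fun i => e x₀ + (i * h) • v
  let φ : ℕ → ℝ := fun i => ‖q i - e (ζ (q i))‖
  have hφ0 : φ 0 ≤ dist x x₀ := by
    have h1 := hζm (q 0) x hx
    have e1 : q 0 = e x₀ := by simp [q]
    rw [e1] at h1
    show ‖q 0 - e (ζ (q 0))‖ ≤ _
    rw [e1, dist_comm, hiso]
    exact h1
  have hstep : ∀ i < N, φ (i + 1) ^ 2 ≤ φ i ^ 2 + 2 * h * ω * φ i + h ^ 2 * ‖v‖ ^ 2 := by
    intro i hi
    set z := ζ (q i) with hz
    have hih : (i : ℝ) * h ≤ t := by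
      have : (i : ℝ) ≤ N := by exact_mod_cast hi.le
      calc (i : ℝ) * h ≤ N * h := mul_le_mul_of_nonneg_right this hh0
        _ = t := by rw [hh]; field_simp
    have h1 : ‖q i - e z‖ ≤ ‖q i - e x‖ := hζm (q i) x hx
    have h2 : ‖q i - e x₀‖ ≤ t * ‖v‖ := by
      show ‖e x₀ + ((i : ℝ) * h) • v - e x₀‖ ≤ _
      rw [add_sub_cancel_left, norm_smul, Real.norm_eq_abs, abs_of_nonneg (by positivity)]
      exact mul_le_mul_of_nonneg_right hih hV
    have h3 : dist z x₀ < ρ := by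
      rw [hiso]
      have h4 : ‖e z - e x₀‖ ≤ ‖q i - e z‖ + ‖q i - e x₀‖ := by
        have : e z - e x₀ = (q i - e x₀) - (q i - e z) := by abel
        rw [this]
        have := norm_sub_le (q i - e x₀) (q i - e z)
        linarith
      have h5 : ‖q i - e x‖ ≤ ‖q i - e x₀‖ + dist x x₀ := by
        have : q i - e x = (q i - e x₀) - (e x - e x₀) := by abel
        rw [this, hiso]
        exact norm_sub_le _ _
      nlinarith
    obtain ⟨u, hu, hvu⟩ := hv z h3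
    have h4 : ⟪q i - e z, u⟫_ℝ = 0 := hnor z (hζ _) (q i) (fun z' hz' => hζm _ z' hz') u hu
    have h5 : ⟪q i - e z, v⟫_ℝ ≤ φ i * ω := by
      have e1 : ⟪q i - e z, v⟫_ℝ = ⟪q i - e z, v - u⟫_ℝ := by rw [inner_sub_right, h4, sub_zero]
      rw [e1]
      exact (real_inner_le_norm _ _).trans (mul_le_mul_of_nonneg_left hvu (norm_nonneg _))
    have h6 : q (i + 1) = q i + h • v := by
      show e x₀ + (((i + 1 : ℕ) : ℝ) * h) • v = e x₀ + ((i : ℝ) * h) • v + h • v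
      rw [add_assoc, ← add_smul]
      congr 2
      push_cast
      ring
    have h7 : φ (i + 1) ≤ ‖q i - e z + h • v‖ := by
      have := hζm (q (i + 1)) z (hζ _)
      rw [h6] at this
      show ‖q (i + 1) - e (ζ (q (i + 1)))‖ ≤ _
      rw [h6]
      refine this.trans (le_of_eq ?_)
      congr 1
      abel
    have h8 : φ (i + 1) ^ 2 ≤ ‖q i - e z + h • v‖ ^ 2 :=
      pow_le_pow_left₀ (norm_nonneg _) h7 2
    rw [norm_add_sq_real, inner_smul_right, norm_smul, mul_pow, Real.norm_eq_abs, sq_abs] at h8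
    refine h8.trans ?_
    have h9 : h * ⟪q i - e z, v⟫_ℝ ≤ h * (φ i * ω) := mul_le_mul_of_nonneg_left h5 hh0
    show φ i ^ 2 + 2 * (h * ⟪q i - e z, v⟫_ℝ) + h ^ 2 * ‖v‖ ^ 2 ≤ _
    nlinarith
  have hfin := steps dist_nonneg hω.le hh0 hV hφ0 (fun i => norm_nonneg _) N hstep N le_rfl
  refine ⟨ζ (q N), hζ _, ?_⟩
  have e1 : (N : ℝ) * h = t := by rw [hh]; field_simp
  have e2 : q N = e x₀ + t • v := by
    show e x₀ + ((N : ℝ) * h) • v = _
    rw [e1]
  have h1 : ‖e (ζ (q N)) - e x₀ - t • v‖ = φ N := by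
    show _ = ‖q N - e (ζ (q N))‖
    rw [norm_sub_rev, e2]
    congr 1
    abel
  rw [h1]
  refine hfin.trans ?_
  have h2 : (N : ℝ) * (h * ω) = ω * t := by rw [← mul_assoc, e1]; ring
  have h3 : √(N : ℝ) * (h * ‖v‖) ≤ ω * t := by
    have h4 : ‖v‖ / ω ≤ √(N : ℝ) := Real.le_sqrt_of_sq_le (by linarith)
    have h5 : √(N : ℝ) * √(N : ℝ) = N := Real.mul_self_sqrt hN0.le
    have h6 : ‖v‖ ≤ √(N : ℝ) * ω := by rwa [div_le_iff₀ hω] at h4
    calc √(N : ℝ) * (h * ‖v‖) ≤ √(N : ℝ) * (h * (√(N : ℝ) * ω)) :=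
          mul_le_mul_of_nonneg_left (mul_le_mul_of_nonneg_left h6 hh0) (Real.sqrt_nonneg _)
      _ = (√(N : ℝ) * √(N : ℝ)) * h * ω := by ring
      _ = ω * t := by rw [h5, e1]; ring
  linarith

/-- Closed sets viable for the field `F`, in the ambient space. -/
def Via (e : X → E) (F : X → Submodule ℝ E) (A : Set X) : Prop :=
  ∀ x ∈ A, ∀ v ∈ F x, ∀ ω > 0, ∃ t₀ > 0, ∀ t, 0 ≤ t → t ≤ t₀ → ∃ z ∈ A,
    ‖e z - e x - t • v‖ ≤ ω * t

variable [FiniteDimensional ℝ E]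

theorem Sq.no_close' {S : ℕ → HypSys X E} {ε : ℕ → ℝ} (h : Sq e T F δ S ε) {A B : ℕ → Set X}
    (hA : ∀ n, ∀ x ∈ A n, ∀ y, WS (S n).g.symm x y → y ∈ A n)
    (hB : ∀ n, ∀ x ∈ B n, ∀ y, WS (S n).g x y → y ∈ B n) {x y : ℕ → X} (hx : ∀ n, x n ∈ A n)
    (hy : ∀ n, y n ∈ B n) (hmin : ∀ n, ∀ a ∈ A n, ∀ b ∈ B n, dist (x n) (y n) ≤ dist a b)
    (hne : ∀ n, x n ≠ y n) (hlim : Tendsto (fun n => dist (x n) (y n)) atTop (𝓝 0))
    (hT : ∀ n : ℕ, ∃ w ∈ T (y n), ‖e (x n) - e (y n) - w‖ ≤ 1 / ((n : ℝ) + 1) * dist (y n) (x n)) :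
    False := by
  have hδ := h.pos
  have h0 := tendsto_one_div_add_atTop_nhds_zero_nat (𝕜 := ℝ)
  choose w hw hxw using hT
  set ν : ℕ → E := fun n => e (y n) - e (x n) with hν
  have hd : ∀ n, 0 < ‖ν n‖ := fun n => by
    rw [hν]
    show 0 < ‖e (y n) - e (x n)‖
    rw [← h.amb.iso, dist_pos]
    exact (hne n).symm
  set N : ℕ → E := fun n => ‖ν n‖⁻¹ • ν n with hN
  have hN1 : ∀ n, ‖N n‖ = 1 := fun n => by
    show ‖‖ν n‖⁻¹ • ν n‖ = 1
    rw [norm_smul, norm_inv, norm_norm, inv_mul_cancel₀ (hd n).ne']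
  set a : ℕ → E := fun n => ‖ν n‖⁻¹ • (-(w n)) with ha
  have haT : ∀ n, a n ∈ T (y n) := fun n =>
    Submodule.smul_mem _ _ (Submodule.neg_mem _ (hw n))
  have hNa : ∀ n : ℕ, ‖N n - a n‖ ≤ 1 / ((n : ℝ) + 1) := fun n => by
    have e1 : N n - a n = ‖ν n‖⁻¹ • (ν n + w n) := by
      show ‖ν n‖⁻¹ • ν n - ‖ν n‖⁻¹ • (-(w n)) = _
      rw [← smul_sub, sub_neg_eq_add]
    have e2 : ‖ν n + w n‖ = ‖e (x n) - e (y n) - w n‖ := by
      rw [← norm_neg]
      congr 1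
      show -(e (y n) - e (x n) + w n) = _
      abel
    have h1 := hxw n
    rw [h.amb.iso] at h1
    rw [e1, norm_smul, norm_inv, norm_norm, e2, inv_mul_le_iff₀ (hd n), mul_comm]
    exact h1
  have hdec : ∀ n, ∃ s ∈ (S n).Vs (y n), ∃ u ∈ (S n).Vu (y n), s + u = a n := fun n => by
    have := haT n
    rw [← (h.near n).sup, Submodule.mem_sup] at this
    exact this
  choose s hs u hu hsu using hdec
  have hab : ∀ n, ‖a n‖ ≤ 2 := fun n => by
    have h1 := norm_sub_le (N n) (N n - a n)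
    rw [sub_sub_cancel, hN1] at h1
    have h2 := hNa n
    have h3 : 1 / ((n : ℝ) + 1) ≤ 1 := by
      rw [div_le_one (by positivity)]
      linarith [n.cast_nonneg (α := ℝ)]
    linarith
  have hsb : ∀ n, ‖s n‖ ≤ 6 / δ := fun n => by
    rw [le_div_iff₀ hδ]
    have h1 := (h.near n).angle hδ h.le1 (h.half n) (h.nonneg n) (hs n) (hu n)
    rw [hsu] at h1
    have := hab n
    linarith
  have hub : ∀ n, ‖u n‖ ≤ 2 + 6 / δ := fun n => by
    have h1 := norm_sub_le (a n) (s n)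
    rw [← hsu n, add_sub_cancel_left, hsu n] at h1
    have := hab n
    have := hsb n
    linarith
  -- convergent subsequence
  have hcomp : IsCompact ((univ : Set X) ×ˢ (closedBall (0 : E) 1 ×ˢ
      (closedBall (0 : E) (6 / δ) ×ˢ closedBall (0 : E) (2 + 6 / δ)))) :=
    isCompact_univ.prod ((isCompact_closedBall _ _).prod
      ((isCompact_closedBall _ _).prod (isCompact_closedBall _ _)))
  obtain ⟨⟨x₀, N₀, s₀, u₀⟩, -, φ, hφ, hl⟩ := hcomp.tendsto_subseq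
    (x := fun n => (y n, N n, s n, u n)) (fun n => ⟨mem_univ _,
      by rw [mem_closedBall_zero_iff, hN1], by rw [mem_closedBall_zero_iff]; exact hsb n,
      by rw [mem_closedBall_zero_iff]; exact hub n⟩)
  have ly : Tendsto (fun n => y (φ n)) atTop (𝓝 x₀) := (continuous_fst.tendsto _).comp hl
  have lN : Tendsto (fun n => N (φ n)) atTop (𝓝 N₀) :=
    ((continuous_fst.comp continuous_snd).tendsto _).comp hl
  have ls : Tendsto (fun n => s (φ n)) atTop (𝓝 s₀) :=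
    ((continuous_fst.comp (continuous_snd.comp continuous_snd)).tendsto _).comp hl
  have lu : Tendsto (fun n => u (φ n)) atTop (𝓝 u₀) :=
    ((continuous_snd.comp (continuous_snd.comp continuous_snd)).tendsto _).comp hl
  have hφt := hφ.tendsto_atTop
  have lx : Tendsto (fun n => x (φ n)) atTop (𝓝 x₀) := by
    rw [tendsto_iff_dist_tendsto_zero] at ly ⊢
    have h1 := (hlim.comp hφt).add ly
    rw [add_zero] at h1
    exact squeeze_zero (fun _ => dist_nonneg) (fun n => dist_triangle _ (y (φ n)) _) h1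
  have hN₀ : ‖N₀‖ = 1 := by
    have h1 := lN.norm
    exact tendsto_nhds_unique h1 (tendsto_const_nhds.congr fun n => (hN1 _).symm)
  have hsum : N₀ = s₀ + u₀ := by
    have h1 : Tendsto (fun n => N (φ n) - (s (φ n) + u (φ n))) atTop (𝓝 (N₀ - (s₀ + u₀))) :=
      lN.sub (ls.add lu)
    have h2 : Tendsto (fun n => N (φ n) - (s (φ n) + u (φ n))) atTop (𝓝 0) := by
      rw [tendsto_zero_iff_norm_tendsto_zero]
      refine squeeze_zero (fun _ => norm_nonneg _) (fun n => ?_) (h0.comp hφt)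
      rw [hsu]
      exact hNa _
    exact sub_eq_zero.1 (tendsto_nhds_unique h1 h2)
  have hu₀ : u₀ ∈ F x₀ := (h.sub φ hφt).u_lim ly (fun n => hu _) lu
  -- orthogonality
  have hort : ∀ n, ∀ p ∈ (S n).Vu (x n), ⟪N n, p⟫_ℝ = 0 := fun n p hp => by
    have h1 := normal (S n) (hA n) (hx n) (e (y n)) (fun z' hz' => by
      have := hmin n z' hz' (y n) (hy n)
      rw [(h.near n).eS, (h.near n).eS, ← h.amb.iso, ← h.amb.iso, dist_comm, dist_comm (y n)]
      exact this) hp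
    rw [(h.near n).eS] at h1
    show ⟪‖ν n‖⁻¹ • ν n, p⟫_ℝ = 0
    rw [inner_smul_left, h1, mul_zero]
  have hort' : ∀ n, ∀ p ∈ (S n).Vs (y n), ⟪N n, p⟫_ℝ = 0 := fun n p hp => by
    have h1 := normal (S n).symm (hB n) (hy n) (e (x n)) (fun z' hz' => by
      have := hmin n (x n) (hx n) z' hz'
      show ‖e (x n) - (S n).e (y n)‖ ≤ ‖e (x n) - (S n).e z'‖
      rw [(h.near n).eS, (h.near n).eS, ← h.amb.iso, ← h.amb.iso]
      exact this) (u := p) hp
    have h2 : (S n).symm.e (y n) = e (y n) := (h.near n).eS _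
    rw [h2] at h1
    show ⟪‖ν n‖⁻¹ • ν n, p⟫_ℝ = 0
    have e1 : ν n = -(e (x n) - e (y n)) := by
      show e (y n) - e (x n) = _
      abel
    rw [inner_smul_left, e1, inner_neg_left, h1, neg_zero, mul_zero]
  have hNs : ⟪N₀, s₀⟫_ℝ = 0 := by
    have h1 : Tendsto (fun n => ⟪N (φ n), s (φ n)⟫_ℝ) atTop (𝓝 ⟪N₀, s₀⟫_ℝ) := lN.inner ls
    exact tendsto_nhds_unique h1 (tendsto_const_nhds.congr fun n => (hort' _ _ (hs _)).symm)
  have hNu : ⟪N₀, u₀⟫_ℝ = 0 := by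
    have h1 : Tendsto (fun n => ⟪N (φ n), u₀⟫_ℝ) atTop (𝓝 ⟪N₀, u₀⟫_ℝ) :=
      lN.inner tendsto_const_nhds
    have h2 : Tendsto (fun n => ⟪N (φ n), u₀⟫_ℝ) atTop (𝓝 0) := by
      rw [Metric.tendsto_atTop]
      intro ω hω
      obtain ⟨ρ, hρ, K, hK⟩ := h.near_vec hu₀ (half_pos hω)
      obtain ⟨K', hK'⟩ := Metric.tendsto_atTop.1 lx ρ hρ
      obtain ⟨K'', hK''⟩ := (tendsto_atTop.1 hφt K).exists_forall_of_atTop
      refine ⟨max K' K'', fun n hn => ?_⟩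
      obtain ⟨p, hp, hup⟩ := hK (φ n) (hK'' n ((le_max_right _ _).trans hn)) (x (φ n))
        (hK' n ((le_max_left _ _).trans hn))
      have e1 : ⟪N (φ n), u₀⟫_ℝ = ⟪N (φ n), u₀ - p⟫_ℝ := by
        rw [inner_sub_right, hort _ p hp, sub_zero]
      rw [dist_zero_right, e1, Real.norm_eq_abs]
      have h3 := abs_real_inner_le_norm (N (φ n)) (u₀ - p)
      rw [hN1, one_mul] at h3
      linarith
    exact tendsto_nhds_unique h1 h2
  have hfin : ⟪N₀, N₀⟫_ℝ = 0 := by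
    nth_rewrite 2 [hsum]
    rw [inner_add_right, hNs, hNu, add_zero]
  rw [real_inner_self_eq_norm_sq, hN₀] at hfin
  norm_num at hfin

theorem Sq.no_close {S : ℕ → HypSys X E} {ε : ℕ → ℝ} (h : Sq e T F δ S ε) {A B : ℕ → Set X}
    (hA : ∀ n, ∀ x ∈ A n, ∀ y, WS (S n).g.symm x y → y ∈ A n)
    (hB : ∀ n, ∀ x ∈ B n, ∀ y, WS (S n).g x y → y ∈ B n) {x y : ℕ → X} (hx : ∀ n, x n ∈ A n)
    (hy : ∀ n, y n ∈ B n) (hmin : ∀ n, ∀ a ∈ A n, ∀ b ∈ B n, dist (x n) (y n) ≤ dist a b)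
    (hne : ∀ n, x n ≠ y n) (hlim : Tendsto (fun n => dist (x n) (y n)) atTop (𝓝 0)) :
    False := by
  have hr : ∀ n : ℕ, ∃ r > 0, ∀ x y, dist x y < r → ∃ w ∈ T x,
      ‖e y - e x - w‖ ≤ 1 / ((n : ℝ) + 1) * dist x y := fun n => h.amb.T1 _ (by positivity)
  choose r hr0 hr using hr
  have hsel : ∀ n : ℕ, ∃ k ≥ n, dist (x k) (y k) < r n := fun n => by
    obtain ⟨K, hK⟩ := ((tendsto_order.1 hlim).2 (r n) (hr0 n)).exists_forall_of_atTop
    exact ⟨max n K, le_max_left _ _, hK _ (le_max_right _ _)⟩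
  choose k hk hkr using hsel
  have hkt : Tendsto k atTop atTop := tendsto_atTop_mono hk tendsto_id
  exact (h.sub k hkt).no_close' (A := fun n => A (k n)) (B := fun n => B (k n))
    (fun n => hA _) (fun n => hB _) (x := fun n => x (k n)) (y := fun n => y (k n))
    (fun n => hx _) (fun n => hy _) (fun n => hmin _) (fun n => hne _) (hlim.comp hkt)
    (fun n => hr n (y (k n)) (x (k n)) (by rw [dist_comm]; exact hkr n))

end Pool.Agent.V5helper18.Mb
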