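import Pool.Agent.V5helper18.Mb.B

/-!
# Saturated sets of nearby systems meet when the field is minimal
-/

set_option autoImplicit false

open Filter Topology Set Metric
open scoped InnerProductSpace

namespace Pool.Agent.V5helper18.Mb

open Pool.Agent.H721R2 Pool.Agent.H789R2.AN

variable {X E : Type*} [MetricSpace X] [CompactSpace X] [NormedAddCommGroup E]
  [InnerProductSpace ℝ E] {e : X → E} {T F : X → Submodule ℝ E} {δ : ℝ}

/-- Limits of closed sets in a compact metric space. -/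
theorem exists_lim {A : ℕ → Set X} (hAc : ∀ n, IsClosed (A n)) (hAn : ∀ n, (A n).Nonempty) :
    ∃ (L : Set X) (φ : ℕ → ℕ), StrictMono φ ∧ IsClosed L ∧ L.Nonempty ∧
      ∀ r > 0, ∃ N, ∀ n ≥ N, (∀ x ∈ L, ∃ y ∈ A (φ n), dist x y < r) ∧
        (∀ y ∈ A (φ n), ∃ x ∈ L, dist y x < r) := by
  let K : ℕ → TopologicalSpace.NonemptyCompacts X := fun n =>
    ⟨⟨A n, (hAc n).isCompact⟩, hAn n⟩
  obtain ⟨L, -, φ, hφ, hl⟩ := isCompact_univ.tendsto_subseq (x := K) (fun n => mem_univ _)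
  refine ⟨L, φ, hφ, L.isCompact.isClosed, L.nonempty, fun r hr => ?_⟩
  obtain ⟨N, hN⟩ := Metric.tendsto_atTop.1 hl r hr
  refine ⟨N, fun n hn => ?_⟩
  have h1 : hausdorffDist (A (φ n)) (L : Set X) < r := by
    have := hN n hn
    exact this
  have hfin : hausdorffEDist (A (φ n)) (L : Set X) ≠ ⊤ :=
    hausdorffEDist_ne_top_of_nonempty_of_bounded (hAn _) L.nonempty
      (hAc _).isCompact.isBounded L.isCompact.isBounded
  constructor
  · intro x hx
    obtain ⟨y, hy, hxy⟩ := exists_dist_lt_of_hausdorffDist_lt' hx h1 hfin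
    exact ⟨y, hy, by rwa [dist_comm]⟩
  · intro y hy
    exact exists_dist_lt_of_hausdorffDist_lt hy h1 hfin

theorem exists_nearest {A B : Set X} (hA : IsClosed A) (hAn : A.Nonempty) (hB : IsClosed B)
    (hBn : B.Nonempty) : ∃ x ∈ A, ∃ y ∈ B, ∀ a ∈ A, ∀ b ∈ B, dist x y ≤ dist a b := by
  obtain ⟨⟨x, y⟩, ⟨hx, hy⟩, hm⟩ := (hA.isCompact.prod hB.isCompact).exists_isMinOn
    (hAn.prod hBn) (f := fun p : X × X => dist p.1 p.2) (by fun_prop)
  exact ⟨x, hx, y, hy, fun a ha b hb => hm (show (a, b) ∈ A ×ˢ B from ⟨ha, hb⟩)⟩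

variable [FiniteDimensional ℝ E]

theorem Sq.via {S : ℕ → HypSys X E} {ε : ℕ → ℝ} (h : Sq e T F δ S ε) {A : ℕ → Set X}
    (hAc : ∀ n, IsClosed (A n)) (hA : ∀ n, ∀ x ∈ A n, ∀ y, WS (S n).g.symm x y → y ∈ A n)
    {L : Set X} (hL : ∀ r > 0, ∃ N, ∀ n ≥ N, (∀ x ∈ L, ∃ y ∈ A n, dist x y < r) ∧
      (∀ y ∈ A n, ∃ x ∈ L, dist y x < r)) : Via e F L := by
  intro x₀ hx₀ v hv ω hω
  obtain ⟨ρ, hρ, K, hK⟩ := h.near_vec hv (show 0 < ω / 4 by positivity)
  refine ⟨ρ / (4 * (‖v‖ + 1)), by positivity, fun t ht0 ht => ?_⟩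
  rcases ht0.eq_or_lt with rfl | htp
  · exact ⟨x₀, hx₀, by simp⟩
  obtain ⟨N, hN⟩ := hL (min (ρ / 4) (ω * t / 4)) (lt_min (by positivity) (by positivity))
  obtain ⟨h1, h2⟩ := hN (max N K) (le_max_left _ _)
  obtain ⟨x, hx, hxx⟩ := h1 x₀ hx₀
  set n := max N K with hn
  have hd1 : dist x x₀ < ρ / 4 := by
    rw [dist_comm]; exact hxx.trans_le (min_le_left _ _)
  have hd2 : dist x x₀ < ω * t / 4 := by
    rw [dist_comm]; exact hxx.trans_le (min_le_right _ _)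
  obtain ⟨z, hz, hzt⟩ := follow_aux h.amb.iso (hAc n) (S n).Vu (fun z hz q hq u hu => by
    have := normal (S n) (hA n) hz q (fun z' hz' => by
      rw [(h.near n).eS, (h.near n).eS]; exact hq z' hz') hu
    rwa [(h.near n).eS] at this) (x₀ := x₀) (v := v) (show 0 < ω / 4 by positivity) hρ
    (hK n (le_max_right _ _)) hx hd1.le ht0 ht
  obtain ⟨z', hz', hzz⟩ := h2 z hz
  refine ⟨z', hz', ?_⟩
  have h3 : ‖e z' - e z‖ ≤ ω * t / 4 := by
    rw [← h.amb.iso, dist_comm]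
    exact (hzz.trans_le (min_le_right _ _)).le
  have h4 : ‖e z' - e x₀ - t • v‖ ≤ ‖e z' - e z‖ + ‖e z - e x₀ - t • v‖ := by
    have : e z' - e x₀ - t • v = (e z' - e z) + (e z - e x₀ - t • v) := by abel
    rw [this]
    exact norm_add_le _ _
  linarith

/-- **Saturated sets meet.** -/
theorem abs_meet (hamb : Amb e T F) (hδ : 0 < δ) (hδ1 : δ ≤ 1)
    (hmin : ∀ A : Set X, IsClosed A → A.Nonempty → Via e F A → A = univ) :
    ∃ ε > 0, ∀ S : HypSys X E, Near e T F δ ε S → ∀ A B : Set X, IsClosed A → A.Nonempty →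
      IsClosed B → B.Nonempty → (∀ x ∈ A, ∀ y, WS S.g.symm x y → y ∈ A) →
      (∀ x ∈ B, ∀ y, WS S.g x y → y ∈ B) → (A ∩ B).Nonempty := by
  by_contra hcon
  push Not at hcon
  have hε0 : ∀ n : ℕ, 0 < min (δ / 2) (1 / ((n : ℝ) + 1)) := fun n =>
    lt_min (by positivity) (by positivity)
  have hsel := fun n : ℕ => hcon _ (hε0 n)
  choose S hS A B hAc hAn hBc hBn hAs hBs hAB using hsel
  have h0 := tendsto_one_div_add_atTop_nhds_zero_nat (𝕜 := ℝ)
  have h : Sq e T F δ S (fun n => min (δ / 2) (1 / ((n : ℝ) + 1))) :=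
    ⟨hamb, hδ, hδ1, hS, fun n => (hε0 n).le, fun n => min_le_left _ _,
      squeeze_zero (fun n => (hε0 n).le) (fun n => min_le_right _ _) h0⟩
  obtain ⟨L, φ, hφ, hLc, hLn, hL⟩ := exists_lim hAc hAn
  have hφt := hφ.tendsto_atTop
  have hLu : L = univ := hmin L hLc hLn ((h.sub φ hφt).via (fun n => hAc _) (fun n => hAs _) hL)
  have hnear := fun n : ℕ => exists_nearest (hAc (φ n)) (hAn (φ n)) (hBc (φ n)) (hBn (φ n))
  choose x hx y hy hxy using hnear
  refine (h.sub φ hφt).no_close (A := fun n => A (φ n)) (B := fun n => B (φ n)) (fun n => hAs _)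
    (fun n => hBs _) hx hy hxy (fun n hne => ?_) ?_
  · have : x n ∈ A (φ n) ∩ B (φ n) := ⟨hx n, hne ▸ hy n⟩
    rw [hAB] at this
    exact this
  · rw [Metric.tendsto_atTop]
    intro r hr
    obtain ⟨N, hN⟩ := hL r hr
    refine ⟨N, fun n hn => ?_⟩
    obtain ⟨a, ha, hya⟩ := (hN n hn).1 (y n) (hLu ▸ mem_univ _)
    rw [dist_zero_right, Real.norm_eq_abs, abs_of_nonneg dist_nonneg]
    have := hxy n a ha (y n) (hy n)
    rw [dist_comm a] at this
    linarith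

omit [FiniteDimensional ℝ E] in
/-- The system is transitive when its saturated sets meet. -/
theorem trans_of_meet (S : HypSys X E) (hmeet : ∀ A B : Set X, IsClosed A → A.Nonempty →
      IsClosed B → B.Nonempty → (∀ x ∈ A, ∀ y, WS S.g.symm x y → y ∈ A) →
      (∀ x ∈ B, ∀ y, WS S.g x y → y ∈ B) → (A ∩ B).Nonempty) (U V : Set X) (hU : IsOpen U)
    (hUn : U.Nonempty) (hV : IsOpen V) (hVn : V.Nonempty) :
    ∃ n : ℕ, (S.g^[n] '' U ∩ V).Nonempty := by
  obtain ⟨c, hc⟩ := exists_LP S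
  refine transitive_of_unique hc (fun A hA => ?_) U V hU hUn hV hVn
  by_contra hne
  obtain ⟨z, hz⟩ := (ne_univ_iff_exists_notMem A).1 hne
  obtain ⟨w, hw, -⟩ := exists_repeller hc hA hz
  obtain ⟨p, hpA, hpB⟩ := hmeet A (Bas S.g A)ᶜ hA.closed hA.nonempty
    (isOpen_bas hc hA).isClosed_compl ⟨w, hw⟩ hA.sat (fun x hx y hxy hy => by
      obtain ⟨q, hq, hyq⟩ := hy
      exact hx ⟨q, hq, hxy.trans hyq⟩)
  exact hpB (subset_bas _ _ hpA)

end Pool.Agent.V5helper18.Mb
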