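import Pool.Agent.V5helper18.Mb.C

/-!
# Closed sets that are viable for the unstable field are saturated by the unstable sets
-/

set_option autoImplicit false

open Filter Topology Set Metric
open scoped InnerProductSpace

namespace Pool.Agent.V5helper18.Mb

open Pool.Agent.H721R2 Pool.Agent.H789R2.AN

variable {X E : Type*} [MetricSpace X] [NormedAddCommGroup E] [InnerProductSpace ℝ E]

/-- Normals of viable sets. -/
theorem via_normal {e : X → E} {F : X → Submodule ℝ E} {A : Set X} (hA : Via e F A) {z : X}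
    (hz : z ∈ A) (q : E) (hq : ∀ z' ∈ A, ‖q - e z‖ ≤ ‖q - e z'‖) {u : E} (hu : u ∈ F z) :
    ⟪q - e z, u⟫_ℝ = 0 := by
  have key : ∀ u ∈ F z, ⟪q - e z, u⟫_ℝ ≤ 0 := by
    intro u hu
    by_contra hcon
    push Not at hcon
    set ν := q - e z with hν
    set c := ⟪ν, u⟫_ℝ with hc
    have hν0 := norm_nonneg ν
    have hu0 := norm_nonneg u
    set ω := c / (4 * (‖ν‖ + 1)) with hω
    have hω0 : 0 < ω := by positivity
    have hω1 : 4 * (ω * ‖ν‖) ≤ c := by
      have h1 : ω * (4 * (‖ν‖ + 1)) = c := by rw [hω]; field_simp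
      nlinarith
    obtain ⟨t₀, ht₀, h1⟩ := hA z hz u hu ω hω0
    set t := min t₀ (c / ((‖u‖ + ω) ^ 2 + 1)) with ht
    have htp : 0 < t := lt_min ht₀ (by positivity)
    have ht2 : t * (‖u‖ + ω) ^ 2 ≤ c := by
      have h2 : t ≤ c / ((‖u‖ + ω) ^ 2 + 1) := min_le_right _ _
      rw [le_div_iff₀ (by positivity)] at h2
      nlinarith
    obtain ⟨z', hz', h3⟩ := h1 t htp.le (min_le_left _ _)
    set r := e z' - e z - t • u with hr
    have h4 : q - e z' = ν - (t • u + r) := by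
      rw [hr, hν]; abel
    have h5 := hq z' hz'
    rw [h4] at h5
    have h6 : ‖ν‖ ^ 2 ≤ ‖ν - (t • u + r)‖ ^ 2 := pow_le_pow_left₀ hν0 h5 2
    rw [norm_sub_sq_real ν (t • u + r), inner_add_right, inner_smul_right] at h6
    have h7 : ‖t • u + r‖ ≤ t * (‖u‖ + ω) := by
      have h8 := norm_add_le (t • u) r
      rw [norm_smul, Real.norm_eq_abs, abs_of_pos htp] at h8
      nlinarith
    have h8 : ‖t • u + r‖ ^ 2 ≤ (t * (‖u‖ + ω)) ^ 2 := pow_le_pow_left₀ (norm_nonneg _) h7 2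
    have h9 : -(‖ν‖ * ‖r‖) ≤ ⟪ν, r⟫_ℝ := by
      have := abs_real_inner_le_norm ν r
      rw [abs_le] at this
      exact this.1
    have h10 : ‖ν‖ * ‖r‖ ≤ ‖ν‖ * (ω * t) := mul_le_mul_of_nonneg_left h3 hν0
    have h11 : (t * (‖u‖ + ω)) ^ 2 = t * (t * (‖u‖ + ω) ^ 2) := by ring
    have h12 : t * (t * (‖u‖ + ω) ^ 2) ≤ t * c := mul_le_mul_of_nonneg_left ht2 htp.le
    have h13 : t * (4 * (ω * ‖ν‖)) ≤ t * c := mul_le_mul_of_nonneg_left hω1 htp.le
    have h14 : 0 < t * c := by positivity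
    rw [← hc] at h6
    nlinarith
  have h1 := key u hu
  have h2 := key (-u) (Submodule.neg_mem _ hu)
  rw [inner_neg_right] at h2
  linarith

/-- Preimages of viable sets. -/
theorem via_pre (S : HypSys X E) {A : Set X} (hA : Via S.e S.Vu A) :
    Via S.e S.Vu (S.g ⁻¹' A) := by
  intro z hz v hv ω hω
  have hz' : S.g z ∈ A := hz
  have hK := S.one_le_K
  have hLs := S.one_le_Ls
  have hb0 := S.b_nonneg
  have hb1 : S.b ≤ 1 := by
    have := S.Kb
    nlinarith
  set v' := S.D z v with hv'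
  have hv'U : v' ∈ S.Vu (S.g z) := S.mapU z v hv
  set L := ‖v'‖ + 1 with hL
  have hL0 : 0 < L := by positivity
  set Q := (S.Ls + 1) * S.K + 1 with hQ
  have hQ0 : 0 < Q := by positivity
  set ω₁ := min 1 (ω / (2 * Q)) with hω₁
  have hω₁0 : 0 < ω₁ := lt_min one_pos (by positivity)
  have hω₁1 : ω₁ ≤ 1 := min_le_left _ _
  have hω₁2 : Q * ω₁ ≤ ω / 2 := by
    have h1 : ω₁ ≤ ω / (2 * Q) := min_le_right _ _
    rw [le_div_iff₀ (by positivity)] at h1
    linarith
  set η := ω / (2 * Q * L) with hη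
  have hη0 : 0 < η := by positivity
  have hη2 : Q * (η * L) = ω / 2 := by rw [hη]; field_simp
  obtain ⟨t₁, ht₁, h1⟩ := hA (S.g z) hz' v' hv'U ω₁ hω₁0
  obtain ⟨r, hr, hA1⟩ := S.A1' η hη0
  refine ⟨min t₁ (r / (2 * L)), lt_min ht₁ (by positivity), fun t ht0 ht => ?_⟩
  obtain ⟨p, hp, h2⟩ := h1 t ht0 (ht.trans (min_le_left _ _))
  have ht2 : t * (2 * L) ≤ r := by
    have : t ≤ r / (2 * L) := ht.trans (min_le_right _ _)
    rwa [le_div_iff₀ (by positivity)] at this
  have hdist : dist (S.g z) p ≤ t * L := by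
    rw [dist_comm, S.isom]
    have h3 := norm_add_le (S.e p - S.e (S.g z) - t • v') (t • v')
    rw [sub_add_cancel, norm_smul, Real.norm_eq_abs, abs_of_nonneg ht0] at h3
    have h4 : ω₁ * t ≤ 1 * t := mul_le_mul_of_nonneg_right hω₁1 ht0
    nlinarith
  have hlt : dist (S.g z) p < r := by
    have : t * L ≤ r / 2 := by linarith
    linarith
  obtain ⟨s, hs, u, hu, h3, h4⟩ := hA1 (S.g z) p hlt
  rw [S.g.symm_apply_apply] at h4
  refine ⟨S.g.symm p, ?_, ?_⟩
  · show S.g (S.g.symm p) ∈ A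
    rwa [S.g.apply_symm_apply]
  have h5 : η * dist (S.g z) p ≤ η * L * t := by
    have := mul_le_mul_of_nonneg_left hdist hη0.le
    linarith
  have h6 : ‖s + (u - t • v')‖ ≤ (ω₁ + η * L) * t := by
    have e1 : s + (u - t • v') = (S.e p - S.e (S.g z) - t • v') -
        (S.e p - S.e (S.g z) - (s + u)) := by abel
    rw [e1]
    have := norm_sub_le (S.e p - S.e (S.g z) - t • v') (S.e p - S.e (S.g z) - (s + u))
    nlinarith
  have hutv : u - t • v' ∈ S.Vu (S.g z) := Submodule.sub_mem _ hu (Submodule.smul_mem _ _ hv'U)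
  obtain ⟨h7, h8⟩ := S.angle _ s hs _ hutv
  have h9 : S.D' (S.g z) (s + u) = S.D' (S.g z) s + S.D' (S.g z) (u - t • v') + t • v := by
    have e1 : s + u = s + (u - t • v') + t • v' := by abel
    rw [e1, map_add, map_add, map_smul, S.invU z v hv]
  have h10 : ‖S.D' (S.g z) s‖ ≤ S.Ls * (S.K * ((ω₁ + η * L) * t)) :=
    (S.boundS _ s hs).trans (mul_le_mul_of_nonneg_left
      (h7.trans (mul_le_mul_of_nonneg_left h6 (by positivity))) (by positivity))
  have h11 : ‖S.D' (S.g z) (u - t • v')‖ ≤ 1 * (S.K * ((ω₁ + η * L) * t)) :=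
    (S.contrU _ _ hutv).trans (mul_le_mul hb1
      (h8.trans (mul_le_mul_of_nonneg_left h6 (by positivity))) (norm_nonneg _) zero_le_one)
  have h12 : S.e (S.g.symm p) - S.e z - t • v = (S.e (S.g.symm p) - S.e z - S.D' (S.g z) (s + u)) +
      S.D' (S.g z) s + S.D' (S.g z) (u - t • v') := by
    rw [h9]; abel
  rw [h12]
  have h13 := norm_add_le ((S.e (S.g.symm p) - S.e z - S.D' (S.g z) (s + u)) + S.D' (S.g z) s)
    (S.D' (S.g z) (u - t • v'))
  have h14 := norm_add_le (S.e (S.g.symm p) - S.e z - S.D' (S.g z) (s + u)) (S.D' (S.g z) s)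
  have h15 : (Q * ω₁ + Q * (η * L)) * t ≤ ω * t := by
    apply mul_le_mul_of_nonneg_right _ ht0
    rw [hη2]; linarith
  have h16 : S.Ls * (S.K * ((ω₁ + η * L) * t)) + 1 * (S.K * ((ω₁ + η * L) * t)) + η * L * t ≤
      (Q * ω₁ + Q * (η * L)) * t := by
    have e1 : S.Ls * (S.K * ((ω₁ + η * L) * t)) + 1 * (S.K * ((ω₁ + η * L) * t)) + η * L * t =
        ((S.Ls + 1) * S.K * ω₁ + ((S.Ls + 1) * S.K + 1) * (η * L)) * t := by ring
    have e2 : (Q * ω₁ + Q * (η * L)) * t =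
        (((S.Ls + 1) * S.K + 1) * ω₁ + ((S.Ls + 1) * S.K + 1) * (η * L)) * t := by rw [hQ]
    rw [e1, e2]
    apply mul_le_mul_of_nonneg_right _ ht0
    nlinarith
  linarith

theorem via_pre_iter (S : HypSys X E) {A : Set X} (hA : Via S.e S.Vu A) (m : ℕ) :
    Via S.e S.Vu (S.g^[m] ⁻¹' A) := by
  induction m with
  | zero => exact hA
  | succ m ih =>
    have := via_pre S ih
    rwa [← preimage_comp, ← Function.iterate_succ] at this

/-- Backward contraction of almost unstable displacements. -/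
theorem back (S : HypSys X E) : ∀ (n : ℕ) (θ : ℝ), 0 < θ → ∃ η > 0, ∃ r > 0,
    ∀ (z z' : X) (u : E), u ∈ S.Vu z → ‖u‖ < r → ‖S.e z' - S.e z - u‖ ≤ η * ‖u‖ → ∀ j ≤ n,
      ∃ w ∈ S.Vu (S.g.symm^[j] z), ‖w‖ ≤ (1 / 2) ^ j * ‖u‖ ∧
        ‖S.e (S.g.symm^[j] z') - S.e (S.g.symm^[j] z) - w‖ ≤ θ * ‖u‖ := by
  intro n
  induction n with
  | zero =>
    intro θ hθ
    refine ⟨θ, hθ, 1, one_pos, fun z z' u hu _ h j hj => ?_⟩
    obtain rfl : j = 0 := by omega
    exact ⟨u, hu, by simp, h⟩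
  | succ n ih =>
    intro θ hθ
    have hK := S.one_le_K
    have hLs := S.one_le_Ls
    have hb0 := S.b_nonneg
    have hb1 : S.b ≤ 1 / 2 := by
      have := S.Kb
      nlinarith
    set Q := (S.Ls + 1) * S.K with hQ
    have hQ1 : 1 ≤ Q := by nlinarith
    have hQ0 : 0 < Q := by linarith
    set θ' := min 1 (θ / (4 * Q)) with hθ'
    have hθ'0 : 0 < θ' := lt_min one_pos (by positivity)
    have hθ'1 : θ' ≤ 1 := min_le_left _ _
    have hθ'2 : Q * θ' ≤ θ / 4 := by
      have h1 : θ' ≤ θ / (4 * Q) := min_le_right _ _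
      rw [le_div_iff₀ (by positivity)] at h1
      linarith
    have hθ'3 : θ' ≤ θ := by nlinarith
    set ηA := θ / (8 * Q) with hηA
    have hηA0 : 0 < ηA := by positivity
    have hηA2 : Q * ηA = θ / 8 := by rw [hηA]; field_simp
    obtain ⟨rA, hrA, hA1⟩ := S.A1' ηA hηA0
    obtain ⟨η, hη, r, hr, hih⟩ := ih θ' hθ'0
    refine ⟨η, hη, min r (rA / 2), lt_min hr (by positivity), fun z z' u hu hur h j hj => ?_⟩
    have hu0 := norm_nonneg u
    have h1 := hih z z' u hu (hur.trans_le (min_le_left _ _)) h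
    rcases Nat.lt_or_ge n j with hnj | hnj
    · obtain rfl : j = n + 1 := by omega
      obtain ⟨w, hw, h2, h3⟩ := h1 n le_rfl
      rw [Function.iterate_succ_apply', Function.iterate_succ_apply']
      set y := S.g.symm^[n] z with hy
      set y' := S.g.symm^[n] z' with hy'
      have hw1 : ‖w‖ ≤ ‖u‖ := by
        have : (1 / 2 : ℝ) ^ n ≤ 1 := pow_le_one₀ (by norm_num) (by norm_num)
        nlinarith
      have hd : dist y y' ≤ 2 * ‖u‖ := by
        rw [dist_comm, S.isom]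
        have h4 := norm_add_le (S.e y' - S.e y - w) w
        rw [sub_add_cancel] at h4
        nlinarith
      have hlt : dist y y' < rA := by
        have : ‖u‖ < rA / 2 := hur.trans_le (min_le_right _ _)
        linarith
      obtain ⟨s, hs, p, hp, h4, h5⟩ := hA1 y y' hlt
      refine ⟨S.D' y w, S.mapU' y w hw, ?_, ?_⟩
      · refine (S.contrU y w hw).trans ?_
        rw [pow_succ]
        have := mul_le_mul hb1 h2 (norm_nonneg w) (by norm_num)
        linarith
      have h6 : ηA * dist y y' ≤ 2 * ηA * ‖u‖ := by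
        have := mul_le_mul_of_nonneg_left hd hηA0.le
        linarith
      have h7 : ‖s + (p - w)‖ ≤ (θ' + 2 * ηA) * ‖u‖ := by
        have e1 : s + (p - w) = (S.e y' - S.e y - w) - (S.e y' - S.e y - (s + p)) := by abel
        rw [e1]
        have := norm_sub_le (S.e y' - S.e y - w) (S.e y' - S.e y - (s + p))
        nlinarith
      have hpw : p - w ∈ S.Vu y := Submodule.sub_mem _ hp hw
      obtain ⟨h8, h9⟩ := S.angle y s hs _ hpw
      have h10 : ‖S.D' y s‖ ≤ S.Ls * (S.K * ((θ' + 2 * ηA) * ‖u‖)) :=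
        (S.boundS _ s hs).trans (mul_le_mul_of_nonneg_left
          (h8.trans (mul_le_mul_of_nonneg_left h7 (by positivity))) (by positivity))
      have h11 : ‖S.D' y (p - w)‖ ≤ 1 * (S.K * ((θ' + 2 * ηA) * ‖u‖)) :=
        (S.contrU _ _ hpw).trans (mul_le_mul (by linarith)
          (h9.trans (mul_le_mul_of_nonneg_left h7 (by positivity))) (norm_nonneg _) zero_le_one)
      have h12 : S.e (S.g.symm y') - S.e (S.g.symm y) - S.D' y w =
          (S.e (S.g.symm y') - S.e (S.g.symm y) - S.D' y (s + p)) + S.D' y s + S.D' y (p - w) := by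
        rw [map_add, map_sub]; abel
      rw [h12]
      have h13 := norm_add_le ((S.e (S.g.symm y') - S.e (S.g.symm y) - S.D' y (s + p)) + S.D' y s)
        (S.D' y (p - w))
      have h14 := norm_add_le (S.e (S.g.symm y') - S.e (S.g.symm y) - S.D' y (s + p)) (S.D' y s)
      have h15 : S.Ls * (S.K * ((θ' + 2 * ηA) * ‖u‖)) + 1 * (S.K * ((θ' + 2 * ηA) * ‖u‖)) =
          (Q * θ' + 2 * (Q * ηA)) * ‖u‖ := by rw [hQ]; ring
      have h16 : (Q * θ' + 2 * (Q * ηA)) * ‖u‖ ≤ (θ / 2) * ‖u‖ := by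
        apply mul_le_mul_of_nonneg_right _ hu0
        rw [hηA2]; linarith
      have h17 : 2 * ηA * ‖u‖ ≤ θ / 2 * ‖u‖ := by
        apply mul_le_mul_of_nonneg_right _ hu0
        nlinarith
      linarith
    · obtain ⟨w, hw, h2, h3⟩ := h1 j hnj
      exact ⟨w, hw, h2, h3.trans (mul_le_mul_of_nonneg_right hθ'3 hu0)⟩

variable [CompactSpace X]

/-- Uniform steps inside a viable set. -/
theorem step_ex (S : HypSys X E) {A : Set X} (hAc : IsClosed A) (hA : Via S.e S.Vu A) {η : ℝ}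
    (hη : 0 < η) (R : ℝ) : ∃ t₀ > 0, ∀ z ∈ A, ∀ p ∈ S.Vu z, ‖p‖ ≤ R → ∀ t, 0 ≤ t → t ≤ t₀ →
      ∃ z' ∈ A, ‖S.e z' - S.e z - t • p‖ ≤ η * (t * ‖p‖) := by
  obtain ⟨ρ, hρ, h1⟩ := S.A3' (η / 2) (by positivity)
  refine ⟨ρ / (4 * (|R| + 1)), by positivity, fun z hz p hp hpR t ht0 ht => ?_⟩
  rcases eq_or_ne p 0 with rfl | hp0
  · exact ⟨z, hz, by simp⟩
  have hpn : 0 < ‖p‖ := norm_pos_iff.2 hp0
  obtain ⟨z', hz', h2⟩ := follow_aux S.isom hAc S.Vu (fun z hz q hq u hu =>
    via_normal hA hz q hq hu) (x₀ := z) (v := p) (ω := η / 2 * ‖p‖) (by positivity) hρ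
    (fun w hw => h1 z w (by rwa [dist_comm]) p hp) hz (by rw [dist_self]; positivity) ht0
    (ht.trans (by
      apply div_le_div_of_nonneg_left hρ.le (by positivity)
      have := le_abs_self R
      linarith))
  rw [dist_self] at h2
  exact ⟨z', hz', h2.trans (le_of_eq (by ring))⟩

end Pool.Agent.V5helper18.Mb
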