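import Pool.Agent.H789R2.AN.Def

/-!
# Plane fields, sets tangent to them, and minimality
-/

set_option autoImplicit false

open scoped Manifold ContDiff Topology Bundle
open Set Filter Bundle

namespace Pool.Agent.V5helper18.Mb

section

variable {E : Type*} [NormedAddCommGroup E] [NormedSpace ℝ E]
  {M : Type*} [TopologicalSpace M] [ChartedSpace E M]

/-- `v` belongs to the contingent (Bouligand) cone of `A` at `x`: it is the limit, read in the
chart at `x`, of the vectors `(y n - x) / t n` for some points `y n` of `A` converging to `x` and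
some positive numbers `t n` converging to `0`. -/
def LimitDirection (A : Set M) (x : M) (v : TangentSpace 𝓘(ℝ, E) x) : Prop :=
  ∃ (y : ℕ → M) (t : ℕ → ℝ), (∀ n, y n ∈ A) ∧ (∀ n, 0 < t n) ∧ Tendsto y atTop (𝓝 x) ∧
    Tendsto t atTop (𝓝 0) ∧
    Tendsto (fun n => (t n)⁻¹ • (extChartAt 𝓘(ℝ, E) x (y n) - extChartAt 𝓘(ℝ, E) x x)) atTop
      (𝓝 (v : E))

/-- The set `A` is tangent to the field of tangent subspaces `V`: at every point `x` of `A`, all
vectors of `V x` are limit directions of `A`. -/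
def TangentTo (V : ∀ x : M, Submodule ℝ (TangentSpace 𝓘(ℝ, E) x)) (A : Set M) : Prop :=
  ∀ x ∈ A, ∀ v ∈ V x, LimitDirection A x v

/-- The field `V` is minimal: the only nonempty closed set tangent to `V` is the whole manifold. -/
def MinimalField (V : ∀ x : M, Submodule ℝ (TangentSpace 𝓘(ℝ, E) x)) : Prop :=
  ∀ A : Set M, IsClosed A → A.Nonempty → TangentTo V A → A = univ

variable [IsManifold 𝓘(ℝ, E) 1 M]

/-- The field `V` is closed in the tangent bundle. -/
def ClosedField (V : ∀ x : M, Submodule ℝ (TangentSpace 𝓘(ℝ, E) x)) : Prop :=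
  IsClosed {p : TangentBundle 𝓘(ℝ, E) M | p.2 ∈ V p.1}

/-- The nonzero vectors of the field `V` belong to the set `C` of tangent vectors. -/
def NonzeroIn (V : ∀ x : M, Submodule ℝ (TangentSpace 𝓘(ℝ, E) x))
    (C : Set (TangentBundle 𝓘(ℝ, E) M)) : Prop :=
  ∀ (x : M), ∀ v ∈ V x, v ≠ 0 → (⟨x, v⟩ : TangentBundle 𝓘(ℝ, E) M) ∈ C

end

end Pool.Agent.V5helper18.Mb
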