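import Pool.Agent.V5helper18.Mb.D

/-!
# Closed sets that are viable for the unstable field are saturated: the local step
-/

set_option autoImplicit false

open Filter Topology Set Metric
open scoped InnerProductSpace

namespace Pool.Agent.V5helper18.Mb

open Pool.Agent.H721R2 Pool.Agent.H789R2.AN

variable {X E : Type*} [MetricSpace X] [NormedAddCommGroup E] [InnerProductSpace ℝ E]
  [CompactSpace X]

/-- The finite chain inside a viable set. -/
theorem chain (S : HypSys X E) {A : Set X} (hAc : IsClosed A) (hA : Via S.e S.Vu A) {c : X}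
    (hc : c ∈ A) {v : E} {d : ℝ} (hd : 0 < d) (hv : ‖v‖ = d)
    (hp : ∀ z, ‖S.e z - S.e c‖ ≤ 5 / 4 * d → ∃ p ∈ S.Vu z, ‖v - p‖ ≤ 3 / 16 * d) (n : ℕ) :
    ∃ z ∈ A, ‖S.e z - S.e c - v‖ ≤ d / 4 ∧
      ∀ j ≤ n, dist (S.g.symm^[j] c) (S.g.symm^[j] z) ≤ 3 * (1 / 2) ^ j * d := by
  obtain ⟨η, hη, r, hr, hback⟩ := back S n ((1 / 2) ^ n) (by positivity)
  obtain ⟨t₀, ht₀, hstep⟩ := step_ex S hAc hA (η := min η (1 / 32))
    (lt_min hη (by norm_num)) (2 * d)
  obtain ⟨N, hN⟩ := exists_nat_gt (max 1 (max (1 / t₀) (2 * d / r)))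
  have hN1 : (1 : ℝ) < N := (le_max_left _ _).trans_lt hN
  have hN2 : 1 / t₀ < N := ((le_max_left _ _).trans (le_max_right _ _)).trans_lt hN
  have hN3 : 2 * d / r < N := ((le_max_right _ _).trans (le_max_right _ _)).trans_lt hN
  have hN0 : (0 : ℝ) < N := by linarith
  set t : ℝ := 1 / N with ht
  have ht0 : 0 < t := by positivity
  have htt : t ≤ t₀ := by
    rw [div_lt_iff₀ ht₀] at hN2
    rw [ht, div_le_iff₀ hN0]
    linarith
  have htr : t * (2 * d) < r := by
    rw [div_lt_iff₀ hr] at hN3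
    rw [ht, one_div, inv_mul_lt_iff₀ hN0]
    linarith
  have htN : (N : ℝ) * t = 1 := by rw [ht]; field_simp
  have key : ∀ i : ℕ, i ≤ N → ∃ z ∈ A, ‖S.e z - S.e c - (i * t) • v‖ ≤ (i * t) * (d / 4) ∧
      ∀ j ≤ n, dist (S.g.symm^[j] c) (S.g.symm^[j] z) ≤ 3 * (1 / 2) ^ j * ((i * t) * d) := by
    intro i
    induction i with
    | zero =>
      intro _
      exact ⟨c, hc, by simp, fun j _ => by simp⟩
    | succ i ih =>
      intro hi
      obtain ⟨z, hz, h1, h2⟩ := ih (by omega)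
      have hit : (i : ℝ) * t ≤ 1 := by
        have : (i : ℝ) ≤ N := by exact_mod_cast (by omega : i ≤ N)
        calc (i : ℝ) * t ≤ N * t := mul_le_mul_of_nonneg_right this ht0.le
          _ = 1 := htN
      have hit0 : 0 ≤ (i : ℝ) * t := by positivity
      have hzc : ‖S.e z - S.e c‖ ≤ 5 / 4 * d := by
        have h3 := norm_add_le (S.e z - S.e c - ((i : ℝ) * t) • v) (((i : ℝ) * t) • v)
        rw [sub_add_cancel, norm_smul, Real.norm_eq_abs, abs_of_nonneg hit0, hv] at h3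
        have h4 : (i : ℝ) * t * d ≤ 1 * d := mul_le_mul_of_nonneg_right hit hd.le
        have h5 : (i : ℝ) * t * (d / 4) ≤ 1 * (d / 4) :=
          mul_le_mul_of_nonneg_right hit (by positivity)
        linarith
      obtain ⟨p, hpU, hvp⟩ := hp z hzc
      have hpn : ‖p‖ ≤ 19 / 16 * d := by
        have h3 := norm_sub_le v (v - p)
        rw [sub_sub_cancel, hv] at h3
        linarith
      obtain ⟨z', hz', h3⟩ := hstep z hz p hpU (by linarith) t ht0.le htt
      have hp0 := norm_nonneg p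
      have htp : ‖t • p‖ = t * ‖p‖ := by rw [norm_smul, Real.norm_eq_abs, abs_of_pos ht0]
      have hc' : ((i + 1 : ℕ) : ℝ) * t = i * t + t := by push_cast; ring
      refine ⟨z', hz', ?_, fun j hj => ?_⟩
      · rw [hc']
        have e1 : S.e z' - S.e c - (i * t + t) • v = (S.e z - S.e c - ((i : ℝ) * t) • v) +
            (S.e z' - S.e z - t • p) - t • (v - p) := by
          rw [add_smul, smul_sub]; abel
        rw [e1]
        have h4 := norm_sub_le ((S.e z - S.e c - ((i : ℝ) * t) • v) +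
            (S.e z' - S.e z - t • p)) (t • (v - p))
        have h5 := norm_add_le (S.e z - S.e c - ((i : ℝ) * t) • v) (S.e z' - S.e z - t • p)
        rw [norm_smul, Real.norm_eq_abs, abs_of_pos ht0] at h4
        have h6 : t * ‖v - p‖ ≤ t * (3 / 16 * d) := mul_le_mul_of_nonneg_left hvp ht0.le
        have h7 : min η (1 / 32) * (t * ‖p‖) ≤ 1 / 32 * (t * (19 / 16 * d)) :=
          mul_le_mul (min_le_right _ _) (mul_le_mul_of_nonneg_left hpn ht0.le)
            (by positivity) (by norm_num)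
        have h8 : 0 < t * d := by positivity
        linarith
      · have h4 : ‖S.e z' - S.e z - t • p‖ ≤ η * ‖t • p‖ := by
          rw [htp]
          exact h3.trans (mul_le_mul_of_nonneg_right (min_le_left _ _) (by positivity))
        have h5 : ‖t • p‖ < r := by
          rw [htp]
          have : t * ‖p‖ ≤ t * (2 * d) := mul_le_mul_of_nonneg_left (by linarith) ht0.le
          linarith
        obtain ⟨w, hw, h6, h7⟩ := hback z z' (t • p) (Submodule.smul_mem _ _ hpU) h5 h4 j hj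
        have h8 : dist (S.g.symm^[j] z) (S.g.symm^[j] z') ≤ 2 * (1 / 2) ^ j * ‖t • p‖ := by
          rw [dist_comm, S.isom]
          have h9 := norm_add_le (S.e (S.g.symm^[j] z') - S.e (S.g.symm^[j] z) - w) w
          rw [sub_add_cancel] at h9
          have h10 : (1 / 2 : ℝ) ^ n ≤ (1 / 2) ^ j :=
            pow_le_pow_of_le_one (by norm_num) (by norm_num) hj
          have h11 : (1 / 2 : ℝ) ^ n * ‖t • p‖ ≤ (1 / 2) ^ j * ‖t • p‖ :=
            mul_le_mul_of_nonneg_right h10 (norm_nonneg _)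
          linarith
        have h9 := dist_triangle (S.g.symm^[j] c) (S.g.symm^[j] z) (S.g.symm^[j] z')
        have h10 := h2 j hj
        have h11 : (1 / 2 : ℝ) ^ j * (t * ‖p‖) ≤ (1 / 2) ^ j * (t * (19 / 16 * d)) :=
          mul_le_mul_of_nonneg_left (mul_le_mul_of_nonneg_left hpn ht0.le) (by positivity)
        rw [htp] at h8
        rw [hc']
        have h12 : 0 < (1 / 2 : ℝ) ^ j * (t * d) := by positivity
        have e1 : 3 * (1 / 2 : ℝ) ^ j * ((i * t + t) * d) =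
            3 * (1 / 2) ^ j * ((i * t) * d) + 3 * ((1 / 2) ^ j * (t * d)) := by ring
        rw [e1]
        have e2 : 2 * (1 / 2 : ℝ) ^ j * (t * ‖p‖) = 2 * ((1 / 2) ^ j * (t * ‖p‖)) := by ring
        rw [e2] at h8
        have e3 : (1 / 2 : ℝ) ^ j * (t * (19 / 16 * d)) = 19 / 16 * ((1 / 2) ^ j * (t * d)) := by
          ring
        rw [e3] at h11
        linarith
  obtain ⟨z, hz, h1, h2⟩ := key N le_rfl
  rw [htN, one_smul, one_mul] at h1
  refine ⟨z, hz, h1, fun j hj => ?_⟩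
  have := h2 j hj
  rwa [htN, one_mul] at this

/-- **Local saturation of viable sets.** -/
theorem loc (S : HypSys X E) : ∃ κ > 0, ∀ A : Set X, IsClosed A → Via S.e S.Vu A → ∀ x ∈ A,
    ∀ y, SR S.g.symm κ x y → y ∈ A := by
  obtain ⟨ε₁, hε₁, hcone⟩ := S.symm.coneS (1 / 16) (by norm_num) (by norm_num)
  obtain ⟨ε₂, hε₂, hcon⟩ := contrS_iter S.symm
  obtain ⟨r3, hr3, hA3⟩ := S.A3' (1 / 64) (by norm_num)
  set κ := min (ε₁ / 4) (min (ε₂ / 4) (r3 / 2)) with hκ
  have hκ0 : 0 < κ := lt_min (by positivity) (lt_min (by positivity) (by positivity))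
  have hκ1 : κ ≤ ε₁ / 4 := min_le_left _ _
  have hκ2 : κ ≤ ε₂ / 4 := (min_le_right _ _).trans (min_le_left _ _)
  have hκ3 : κ ≤ r3 / 2 := (min_le_right _ _).trans (min_le_right _ _)
  refine ⟨κ, hκ0, fun A hAc hA x hx y hxy => ?_⟩
  have hcont : ∀ k : ℕ, Continuous (fun z => S.g.symm^[k] z) := fun k =>
    S.g.symm.continuous.iterate k
  have hKc : IsClosed {z | z ∈ A ∧ SR S.g.symm (4 * κ) z y} := by
    have h1 : {z | z ∈ A ∧ SR S.g.symm (4 * κ) z y} =
        A ∩ ⋂ k : ℕ, {z | dist (S.g.symm^[k] z) (S.g.symm^[k] y) ≤ 4 * κ} := by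
      ext z
      simp only [mem_setOf_eq, mem_inter_iff, mem_iInter, SR]
    rw [h1]
    exact hAc.inter (isClosed_iInter fun k =>
      isClosed_le ((hcont k).dist continuous_const) continuous_const)
  obtain ⟨c, ⟨hcA, hcy⟩, hmin⟩ := hKc.isCompact.exists_isMinOn
    (f := fun z => dist z y) ⟨x, hx, hxy.mono (by linarith)⟩ (by fun_prop)
  by_contra hyA
  set d := dist c y with hd
  have hd0 : 0 < d := by
    rw [hd, dist_pos]
    rintro rfl
    exact hyA hcA
  have hdκ : d ≤ κ := (hmin (show x ∈ {z | z ∈ A ∧ SR S.g.symm (4 * κ) z y} from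
    ⟨hx, hxy.mono (by linarith)⟩)).trans (hxy 0)
  have hcc : ∀ n : ℕ, dist (S.g.symm^[n] c) (S.g.symm^[n] y) ≤ (1 / 2) ^ n * d :=
    hcon c y (fun k => (hcy k).trans (by linarith))
  obtain ⟨u₀, hu₀, s₀, hs₀, h1, -, h2⟩ := hcone c y (fun k => (hcy k).trans (by linarith))
  set v := S.e y - S.e c with hv
  have hvn : ‖v‖ = d := by rw [hv, ← S.isom, dist_comm]
  have h1' : ‖v - (u₀ + s₀)‖ ≤ 1 / 16 * d := h1
  have hvu : ‖v - u₀‖ ≤ 1 / 8 * d := by
    have e1 : v - u₀ = (v - (u₀ + s₀)) + s₀ := by abel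
    rw [e1]
    have := norm_add_le (v - (u₀ + s₀)) s₀
    linarith
  have hun : ‖u₀‖ ≤ 9 / 8 * d := by
    have h3 := norm_sub_le v (v - u₀)
    rw [sub_sub_cancel, hvn] at h3
    linarith
  have hp : ∀ z, ‖S.e z - S.e c‖ ≤ 5 / 4 * d → ∃ p ∈ S.Vu z, ‖v - p‖ ≤ 3 / 16 * d := by
    intro z hz
    obtain ⟨p, hp, h3⟩ := hA3 c z (by
      rw [dist_comm, S.isom]
      linarith) u₀ hu₀
    refine ⟨p, hp, ?_⟩
    have e1 : v - p = (v - u₀) + (u₀ - p) := by abel
    rw [e1]
    have := norm_add_le (v - u₀) (u₀ - p)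
    linarith
  have hch := fun n : ℕ => chain S hAc hA hcA hd0 hvn hp n
  choose z hzA hz1 hz2 using hch
  obtain ⟨z₀, -, φ, hφ, hl⟩ := isCompact_univ.tendsto_subseq (x := z) (fun n => mem_univ _)
  have hz₀A : z₀ ∈ A := hAc.mem_of_tendsto hl (Eventually.of_forall fun n => hzA _)
  have hz₀1 : dist z₀ y ≤ d / 4 := by
    have h3 : Tendsto (fun n => dist (z (φ n)) y) atTop (𝓝 (dist z₀ y)) :=
      hl.dist tendsto_const_nhds
    refine le_of_tendsto h3 (Eventually.of_forall fun n => ?_)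
    rw [S.isom]
    have h4 := hz1 (φ n)
    have e1 : S.e (z (φ n)) - S.e c - v = S.e (z (φ n)) - S.e y := by rw [hv]; abel
    rwa [e1] at h4
  have hz₀2 : ∀ j : ℕ, dist (S.g.symm^[j] c) (S.g.symm^[j] z₀) ≤ 3 * (1 / 2) ^ j * d := by
    intro j
    have h3 : Tendsto (fun n => dist (S.g.symm^[j] c) (S.g.symm^[j] (z (φ n)))) atTop
        (𝓝 (dist (S.g.symm^[j] c) (S.g.symm^[j] z₀))) :=
      tendsto_const_nhds.dist (((hcont j).tendsto z₀).comp hl)
    refine le_of_tendsto h3 ?_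
    filter_upwards [eventually_ge_atTop j] with n hn
    exact hz2 (φ n) j (hn.trans (hφ.id_le n))
  have hz₀K : z₀ ∈ {z | z ∈ A ∧ SR S.g.symm (4 * κ) z y} := by
    refine ⟨hz₀A, fun k => ?_⟩
    have h3 := dist_triangle_left (S.g.symm^[k] z₀) (S.g.symm^[k] y) (S.g.symm^[k] c)
    have h4 := hz₀2 k
    have h5 := hcc k
    have h6 : (1 / 2 : ℝ) ^ k * d ≤ 1 * d :=
      mul_le_mul_of_nonneg_right (pow_le_one₀ (by norm_num) (by norm_num)) hd0.le
    linarith
  have h3 := hmin hz₀K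
  have h4 : d ≤ dist z₀ y := h3
  linarith

/-- **Viable closed sets are saturated.** -/
theorem via_sat (S : HypSys X E) {A : Set X} (hAc : IsClosed A) (hA : Via S.e S.Vu A) :
    ∀ x ∈ A, ∀ y, WS S.g.symm x y → y ∈ A := by
  intro x hx y hxy
  obtain ⟨κ, hκ, hloc⟩ := loc S
  obtain ⟨m, hm⟩ := hxy.eventually_lt hκ
  have h1 : S.g.symm^[m] x ∈ S.g^[m] ⁻¹' A := by
    rw [mem_preimage, iterR]
    exact hx
  have h2 := hloc (S.g^[m] ⁻¹' A) (hAc.preimage (S.g.continuous.iterate m))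
    (via_pre_iter S hA m) _ h1 (S.g.symm^[m] y) (fun k => by
      rw [← Function.iterate_add_apply, ← Function.iterate_add_apply]
      exact (hm _ (by omega)).le)
  rw [mem_preimage, iterR] at h2
  exact h2

/-- Saturated sets are viable. -/
theorem sat_via (S : HypSys X E) {A : Set X} (hA : ∀ x ∈ A, ∀ y, WS S.g.symm x y → y ∈ A) :
    Via S.e S.Vu A := by
  intro x hx v hv ω hω
  obtain ⟨r, hr, hdir⟩ := direction S (ω / (‖v‖ + 1)) (by positivity)
  refine ⟨r / (2 * (‖v‖ + 1)), by positivity, fun t ht0 ht => ?_⟩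
  have htv : ‖t • v‖ = t * ‖v‖ := by rw [norm_smul, Real.norm_eq_abs, abs_of_nonneg ht0]
  have hv0 := norm_nonneg v
  rw [le_div_iff₀ (by positivity)] at ht
  obtain ⟨z, hz1, hz2⟩ := hdir x (t • v) (Submodule.smul_mem _ _ hv) (by
    rw [htv]
    nlinarith)
  refine ⟨z, hA x hx z hz1, hz2.trans ?_⟩
  rw [htv]
  have h1 : ω / (‖v‖ + 1) * ‖v‖ ≤ ω := by
    rw [div_mul_eq_mul_div, div_le_iff₀ (by positivity)]
    nlinarith
  calc ω / (‖v‖ + 1) * (t * ‖v‖) = (ω / (‖v‖ + 1) * ‖v‖) * t := by ring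
    _ ≤ ω * t := mul_le_mul_of_nonneg_right h1 ht0

end Pool.Agent.V5helper18.Mb
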