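import Pool.Agent.V5helper18.Mb.E
import Pool.Agent.Y331.EP.Dia
import Pool.Agent.Y331.EP.Mix
import Pool.Agent.H721R2.Build

/-!
# Transitivity and minimality of the unstable field: abstract form
-/

set_option autoImplicit false

open Filter Topology Set Metric
open scoped InnerProductSpace

namespace Pool.Agent.V5helper18.Mb

open Pool.Agent.H721R2 Pool.Agent.H789R2.AN Pool.Agent.Y331.EP

section dyn

variable {X : Type*} [MetricSpace X] [CompactSpace X]

/-- Unstable sets of transitive homeomorphisms with shadowing are dense. -/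
theorem dense_u [ConnectedSpace X] {f : X ≃ₜ X} {c : ℝ} (hE : Ex f c) (hS : Shad f) (hT : TT f)
    (x v : X) {ε : ℝ} (hε : 0 < ε) : ∃ y, WS f.symm x y ∧ dist v y ≤ ε := by
  obtain ⟨δ, hδ, hsh⟩ := hS (min ε c) (lt_min hε hE.pos)
  obtain ⟨N, hN⟩ := exists_mx hT hδ
  obtain ⟨τ, hτ⟩ : ∃ τ, τ = N + 1 := ⟨_, rfl⟩
  obtain ⟨q, hq, hq0, hqτ⟩ := hN τ (by omega) (f.symm^[τ] x) v
  set P : ℤ → X := fun n => if n ≤ 0 then (f ^ n) (f.symm^[τ] x) else
    if n < τ then q n.toNat else (f ^ (n - τ)) v with hP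
  have hch : ∀ n, dist (f (P n)) (P (n + 1)) ≤ δ := by
    intro n
    rcases lt_trichotomy n 0 with h | h | h
    · have e1 : P n = (f ^ n) (f.symm^[τ] x) := by simp only [hP]; rw [if_pos h.le]
      have e2 : P (n + 1) = (f ^ (n + 1)) (f.symm^[τ] x) := by
        simp only [hP]; rw [if_pos (by omega)]
      rw [e1, e2, zp_succ, dist_self]
      exact hδ.le
    · subst h
      have e1 : P 0 = q 0 := by simp only [hP]; rw [if_pos le_rfl, hq0]; simp
      have h1 := hq 0 (by omega)
      rw [e1]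
      by_cases h2 : (1 : ℤ) < τ
      · have e2 : P (0 + 1) = q (0 + 1) := by
          simp only [hP]
          rw [if_neg (by omega), if_pos (by omega)]
          simp
        rw [e2]
        exact h1
      · have h3 : τ = 1 := by omega
        have e2 : P (0 + 1) = q (0 + 1) := by
          simp only [hP]
          rw [if_neg (by omega), if_neg (by omega), Nat.zero_add, ← h3, hqτ, h3]
          simp
        rw [e2]
        exact h1
    · by_cases h2 : n < τ
      · have e1 : P n = q n.toNat := by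
          simp only [hP]; rw [if_neg (by omega), if_pos h2]
        have h1 := hq n.toNat (by omega)
        rw [e1]
        by_cases h3 : n + 1 < τ
        · have e2 : P (n + 1) = q (n.toNat + 1) := by
            simp only [hP]
            rw [if_neg (by omega), if_pos h3]
            congr 1
            omega
          rw [e2]
          exact h1
        · have e2 : P (n + 1) = q (n.toNat + 1) := by
            simp only [hP]
            rw [if_neg (by omega), if_neg h3]
            have h4 : n + 1 - τ = 0 := by omega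
            have h5 : n.toNat + 1 = τ := by omega
            rw [h4, h5, hqτ]
            simp
          rw [e2]
          exact h1
      · have e1 : P n = (f ^ (n - τ)) v := by
          simp only [hP]; rw [if_neg (by omega), if_neg h2]
        have e2 : P (n + 1) = (f ^ (n - τ + 1)) v := by
          simp only [hP]
          rw [if_neg (by omega), if_neg (by omega)]
          congr 2
          ring
        rw [e1, e2, zp_succ, dist_self]
        exact hδ.le
  obtain ⟨y, hy, hyd⟩ := hsh P hch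
  refine ⟨y τ, ?_, ?_⟩
  · have h1 : Tendsto (fun n : ℕ => dist (f.symm^[n] (f.symm^[τ] x)) (f.symm^[n] (y 0))) atTop
        (𝓝 0) := by
      refine tend_of_close hE.symm (L := 0) fun n _ => ?_
      have h2 := hyd (-(n : ℤ))
      have e1 : P (-(n : ℤ)) = f.symm^[n] (f.symm^[τ] x) := by
        simp only [hP]
        rw [if_pos (by omega), zp_neg]
      rw [e1, orb_eq f hy, zp_neg] at h2
      exact h2.trans (min_le_right _ _)
    have h2 : f.symm^[τ] (y τ) = y 0 := by
      have h3 := orb_nat hy 0 τ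
      rw [zero_add] at h3
      rw [h3, iterL]
    rw [← h2] at h1
    exact (WS.iter τ).1 h1
  · have h2 := hyd τ
    have e1 : P τ = v := by
      simp only [hP]
      rw [if_neg (by omega), if_neg (by omega)]
      simp
    rw [e1] at h2
    exact h2.trans (min_le_left _ _)

theorem symm_iter (f : X ≃ₜ X) (n k : ℕ) (x : X) :
    (iterHomeo f n).symm^[k] x = f.symm^[n * k] x := by
  have h1 : ⇑(iterHomeo f n).symm = f.symm^[n] := rfl
  rw [h1, ← Function.iterate_mul]

theorem ws_iter {f : X ≃ₜ X} {n : ℕ} (hn : 1 ≤ n) {x y : X} (h : WS f.symm x y) :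
    WS (iterHomeo f n).symm x y := by
  have h1 : Tendsto (fun k : ℕ => n * k) atTop atTop :=
    tendsto_atTop_mono (fun k => Nat.le_mul_of_pos_left k (by omega)) tendsto_id
  refine (h.comp h1).congr fun k => ?_
  show dist (f.symm^[n * k] x) (f.symm^[n * k] y) = _
  rw [symm_iter, symm_iter]

end dyn

variable {X E : Type*} [MetricSpace X] [NormedAddCommGroup E] [InnerProductSpace ℝ E]

/-- Sets whose contingent cones contain the field `F`. -/
def Con (e : X → E) (F : X → Submodule ℝ E) (A : Set X) : Prop :=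
  ∀ x ∈ A, ∀ v ∈ F x, ∀ ω > 0, ∀ t₀ > 0, ∃ t, 0 < t ∧ t ≤ t₀ ∧ ∃ z ∈ A,
    ‖e z - e x - t • v‖ ≤ ω * t

theorem Via.con {e : X → E} {F : X → Submodule ℝ E} {A : Set X} (h : Via e F A) : Con e F A := by
  intro x hx v hv ω hω t₀ ht₀
  obtain ⟨t₁, ht₁, h1⟩ := h x hx v hv ω hω
  exact ⟨min t₀ t₁, lt_min ht₀ ht₁, min_le_left _ _, h1 _ (lt_min ht₀ ht₁).le (min_le_right _ _)⟩

/-- Normals of sets with large contingent cones. -/
theorem con_normal {e : X → E} {F : X → Submodule ℝ E} {A : Set X} (hA : Con e F A) {z : X}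
    (hz : z ∈ A) (q : E) (hq : ∀ z' ∈ A, ‖q - e z‖ ≤ ‖q - e z'‖) {u : E} (hu : u ∈ F z) :
    ⟪q - e z, u⟫_ℝ = 0 := by
  have key : ∀ u ∈ F z, ⟪q - e z, u⟫_ℝ ≤ 0 := by
    intro u hu
    by_contra hcon
    push Not at hcon
    set ν := q - e z with hν
    set c := ⟪ν, u⟫_ℝ with hc
    have hν0 := norm_nonneg ν
    have hu0 := norm_nonneg u
    set ω := c / (4 * (‖ν‖ + 1)) with hω
    have hω0 : 0 < ω := by positivity
    have hω1 : 4 * (ω * ‖ν‖) ≤ c := by
      have h1 : ω * (4 * (‖ν‖ + 1)) = c := by rw [hω]; field_simp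
      nlinarith
    obtain ⟨t, htp, htt, z', hz', h3⟩ := hA z hz u hu ω hω0 (c / ((‖u‖ + ω) ^ 2 + 1))
      (by positivity)
    have ht2 : t * (‖u‖ + ω) ^ 2 ≤ c := by
      rw [le_div_iff₀ (by positivity)] at htt
      nlinarith
    set r := e z' - e z - t • u with hr
    have h4 : q - e z' = ν - (t • u + r) := by
      rw [hr, hν]; abel
    have h5 := hq z' hz'
    rw [h4] at h5
    have h6 : ‖ν‖ ^ 2 ≤ ‖ν - (t • u + r)‖ ^ 2 := pow_le_pow_left₀ hν0 h5 2
    rw [norm_sub_sq_real ν (t • u + r), inner_add_right, inner_smul_right] at h6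
    have h7 : ‖t • u + r‖ ≤ t * (‖u‖ + ω) := by
      have h8 := norm_add_le (t • u) r
      rw [norm_smul, Real.norm_eq_abs, abs_of_pos htp] at h8
      nlinarith
    have h8 : ‖t • u + r‖ ^ 2 ≤ (t * (‖u‖ + ω)) ^ 2 := pow_le_pow_left₀ (norm_nonneg _) h7 2
    have h9 : -(‖ν‖ * ‖r‖) ≤ ⟪ν, r⟫_ℝ := by
      have := abs_real_inner_le_norm ν r
      rw [abs_le] at this
      exact this.1
    have h10 : ‖ν‖ * ‖r‖ ≤ ‖ν‖ * (ω * t) := mul_le_mul_of_nonneg_left h3 hν0
    have h11 : (t * (‖u‖ + ω)) ^ 2 = t * (t * (‖u‖ + ω) ^ 2) := by ring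
    have h12 : t * (t * (‖u‖ + ω) ^ 2) ≤ t * c := mul_le_mul_of_nonneg_left ht2 htp.le
    have h13 : t * (4 * (ω * ‖ν‖)) ≤ t * c := mul_le_mul_of_nonneg_left hω1 htp.le
    have h14 : 0 < t * c := by positivity
    rw [← hc] at h6
    nlinarith
  have h1 := key u hu
  have h2 := key (-u) (Submodule.neg_mem _ hu)
  rw [inner_neg_right] at h2
  linarith

variable [CompactSpace X]

/-- For the unstable field, contingent directions are uniform. -/
theorem con_via (S : HypSys X E) {A : Set X} (hAc : IsClosed A) (hA : Con S.e S.Vu A) :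
    Via S.e S.Vu A := by
  intro x hx v hv ω hω
  have hv0 := norm_nonneg v
  obtain ⟨ρ, hρ, h1⟩ := S.A3' (ω / (2 * (‖v‖ + 1))) (by positivity)
  refine ⟨ρ / (4 * (‖v‖ + 1)), by positivity, fun t ht0 ht => ?_⟩
  obtain ⟨z, hz, h2⟩ := follow_aux S.isom hAc S.Vu (fun z hz q hq u hu =>
    con_normal hA hz q hq hu) (x₀ := x) (v := v) (ω := ω / 2) (by positivity) hρ
    (fun w hw => by
      obtain ⟨u', hu', h3⟩ := h1 x w (by rwa [dist_comm]) v hv
      refine ⟨u', hu', h3.trans ?_⟩
      rw [div_mul_eq_mul_div, div_le_div_iff₀ (by positivity) (by positivity)]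
      nlinarith) hx (by rw [dist_self]; positivity) ht0 ht
  rw [dist_self] at h2
  exact ⟨z, hz, h2.trans (le_of_eq (by ring))⟩

/-- Transitivity gives minimality of the unstable field. -/
theorem univ_of_con [ConnectedSpace X] {f : X ≃ₜ X} {c : ℝ} (hE : Ex f c) (hS : Shad f)
    (hT : TT f) (S : HypSys X E) {n : ℕ} (hn : 1 ≤ n) (hg : S.g = iterHomeo f n) {A : Set X}
    (hAc : IsClosed A) (hAn : A.Nonempty) (hA : Con S.e S.Vu A) : A = univ := by
  obtain ⟨x, hx⟩ := hAn
  have hsat := via_sat S hAc (con_via S hAc hA)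
  rw [eq_univ_iff_forall]
  intro v
  rw [← hAc.closure_eq, Metric.mem_closure_iff]
  intro ε hε
  obtain ⟨y, hy, hvy⟩ := dense_u hE hS hT x v (half_pos hε)
  refine ⟨y, hsat x hx y ?_, by linarith⟩
  rw [hg]
  exact ws_iter hn hy

/-- Minimality of the unstable field gives transitivity. -/
theorem tt_of_min {f : X ≃ₜ X} (S : HypSys X E) {n : ℕ} (hg : S.g = iterHomeo f n)
    (hmin : ∀ A : Set X, IsClosed A → A.Nonempty → Via S.e S.Vu A → A = univ) : TT f := by
  intro U V hU hUn hV hVn
  obtain ⟨c, hc⟩ := exists_LP S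
  obtain ⟨k, hk⟩ := transitive_of_unique hc (fun A hA =>
    hmin A hA.closed hA.nonempty (sat_via S hA.sat)) U V hU hUn hV hVn
  refine ⟨n * k, ?_⟩
  rw [hg] at hk
  have h1 : (iterHomeo f n)^[k] = f^[n * k] := by
    rw [Function.iterate_mul]
    rfl
  rwa [h1] at hk

theorem tt_of_meet {f : X ≃ₜ X} (S : HypSys X E) {n : ℕ} (hg : S.g = iterHomeo f n)
    (hmeet : ∀ A B : Set X, IsClosed A → A.Nonempty →
      IsClosed B → B.Nonempty → (∀ x ∈ A, ∀ y, WS S.g.symm x y → y ∈ A) →
      (∀ x ∈ B, ∀ y, WS S.g x y → y ∈ B) → (A ∩ B).Nonempty) : TT f := by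
  intro U V hU hUn hV hVn
  obtain ⟨k, hk⟩ := trans_of_meet S hmeet U V hU hUn hV hVn
  refine ⟨n * k, ?_⟩
  rw [hg] at hk
  have h1 : (iterHomeo f n)^[k] = f^[n * k] := by
    rw [Function.iterate_mul]
    rfl
  rwa [h1] at hk

end Pool.Agent.V5helper18.Mb
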