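import Pool.Agent.V5helper18.Mb.G
import Pool.Agent.Y331.EP.Man

/-!
# The tangent bundle of an embedded manifold
-/

set_option autoImplicit false
set_option linter.unusedSectionVars false

open scoped Manifold ContDiff Topology Bundle
open Set Filter Bundle

namespace Pool.Agent.V5helper18.Mb

open Pool.Agent.H721R2 Pool.Agent.H789R2.AN

variable {E₀ : Type*} [NormedAddCommGroup E₀] [NormedSpace ℝ E₀] [FiniteDimensional ℝ E₀]
  {M : Type*} [TopologicalSpace M] [ChartedSpace E₀ M] [IsManifold 𝓘(ℝ, E₀) 1 M]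
  {F : Type*} [NormedAddCommGroup F] [NormedSpace ℝ F]

theorem triv_snd (x₀ : M) (p : TangentBundle 𝓘(ℝ, E₀) M) (hx : p.1 ∈ (chartAt E₀ x₀).source) :
    (trivializationAt E₀ (TangentSpace 𝓘(ℝ, E₀) : M → Type _) x₀ p).2 =
      dm E₀ (extChartAt 𝓘(ℝ, E₀) x₀) p.1 p.2 := by
  obtain ⟨x, v⟩ := p
  have h1 : (trivializationAt E₀ (TangentSpace 𝓘(ℝ, E₀) : M → Type _) x₀).continuousLinearMapAt
      ℝ x v = dm E₀ (extChartAt 𝓘(ℝ, E₀) x₀) x v := by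
    rw [TangentBundle.continuousLinearMapAt_trivializationAt hx]
    rfl
  rw [← h1, Trivialization.continuousLinearMapAt_apply]
  rw [Trivialization.coe_linearMapAt_of_mem]
  exact hx

theorem tendsto_tm_iff {ι : Type*} {l : Filter ι} (p : ι → TangentBundle 𝓘(ℝ, E₀) M)
    (p₀ : TangentBundle 𝓘(ℝ, E₀) M) : Tendsto p l (𝓝 p₀) ↔ Tendsto (fun i => (p i).1) l (𝓝 p₀.1) ∧
      Tendsto (fun i => (dm E₀ (extChartAt 𝓘(ℝ, E₀) p₀.1) (p i).1 (p i).2 : E₀)) l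
        (𝓝 (dm E₀ (extChartAt 𝓘(ℝ, E₀) p₀.1) p₀.1 p₀.2)) := by
  have hsrc : (chartAt E₀ p₀.1).source ∈ 𝓝 p₀.1 :=
    (chartAt E₀ p₀.1).open_source.mem_nhds (mem_chart_source E₀ p₀.1)
  rw [(trivializationAt E₀ (TangentSpace 𝓘(ℝ, E₀) : M → Type _) p₀.1).tendsto_nhds_iff
    (FiberBundle.mem_trivializationAt_proj_source), triv_snd p₀.1 p₀ (mem_chart_source E₀ p₀.1)]
  refine and_congr_right fun h1 => ?_
  refine tendsto_congr' ?_
  have h2 : ∀ᶠ i in l, (p i).1 ∈ (chartAt E₀ p₀.1).source := h1 hsrc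
  filter_upwards [h2] with i hi
  exact triv_snd p₀.1 (p i) hi

theorem dm_chart_self (x : M) (v : E₀) : dm E₀ (extChartAt 𝓘(ℝ, E₀) x) x v = v := by
  show mfderiv 𝓘(ℝ, E₀) 𝓘(ℝ, E₀) (extChartAt 𝓘(ℝ, E₀) x) x v = v
  rw [mfderiv_extChartAt_self]
  rfl

/-- The derivative of the coordinate expression at the centre. -/
theorem hat_fderiv (e : M → F) (he : ContMDiff 𝓘(ℝ, E₀) 𝓘(ℝ, F) 1 e) (x : M) :
    fderiv ℝ (hatMap e x) (extChartAt 𝓘(ℝ, E₀) x x) = dm E₀ e x := by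
  ext v
  have h1 := hatMap_mfderiv e he x x (mem_extChartAt_source x) v
  rw [dm_chart_self] at h1
  exact h1.symm

theorem exists_low (L : E₀ →L[ℝ] F) (hL : Function.Injective L) :
    ∃ κ > 0, ∀ w, ‖w‖ ≤ κ * ‖L w‖ := by
  obtain ⟨K, hK0, hK⟩ := (LinearMap.injective_iff_antilipschitz (L : E₀ →ₗ[ℝ] F)).mp hL
  exact ⟨K, hK0, fun w => ZeroHomClass.bound_of_antilipschitz (L : E₀ →ₗ[ℝ] F) hK w⟩

/-- The tangent bundle is embedded by the derivative of an immersion. -/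
theorem tendsto_dm (e : M → F) (he : ContMDiff 𝓘(ℝ, E₀) 𝓘(ℝ, F) 1 e)
    (hinj : ∀ x, Function.Injective (dm E₀ e x)) {ι : Type*} {l : Filter ι}
    (p : ι → TangentBundle 𝓘(ℝ, E₀) M) (p₀ : TangentBundle 𝓘(ℝ, E₀) M) :
    Tendsto p l (𝓝 p₀) ↔ Tendsto (fun i => (p i).1) l (𝓝 p₀.1) ∧
      Tendsto (fun i => dm E₀ e (p i).1 (p i).2) l (𝓝 (dm E₀ e p₀.1 p₀.2)) := by
  rw [tendsto_tm_iff]
  refine and_congr_right fun h1 => ?_
  set x₀ := p₀.1 with hx₀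
  set L : E₀ → E₀ →L[ℝ] F := fderiv ℝ (hatMap e x₀) with hL
  have hc := hatMap_contDiffAt e he x₀ (extChartAt 𝓘(ℝ, E₀) x₀ x₀) (mem_extChartAt_target x₀)
  have hcd : ContinuousAt L (extChartAt 𝓘(ℝ, E₀) x₀ x₀) := by
    have := hc.fderiv_right (m := 0) (by norm_num)
    exact this.continuousAt
  have hLt : Tendsto (fun i => L (extChartAt 𝓘(ℝ, E₀) x₀ (p i).1)) l (𝓝 (dm E₀ e x₀)) := by
    rw [← hat_fderiv e he x₀]
    exact hcd.tendsto.comp ((continuousAt_extChartAt x₀).tendsto.comp h1)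
  have hsrc : (extChartAt 𝓘(ℝ, E₀) x₀).source ∈ 𝓝 x₀ := extChartAt_source_mem_nhds x₀
  have hev : ∀ᶠ i in l, (p i).1 ∈ (extChartAt 𝓘(ℝ, E₀) x₀).source := h1 hsrc
  have heq : ∀ᶠ i in l, dm E₀ e (p i).1 (p i).2 = L (extChartAt 𝓘(ℝ, E₀) x₀ (p i).1)
      (dm E₀ (extChartAt 𝓘(ℝ, E₀) x₀) (p i).1 (p i).2) := by
    filter_upwards [hev] with i hi
    exact hatMap_mfderiv e he x₀ (p i).1 hi (p i).2
  rw [dm_chart_self, tendsto_congr' heq]
  set a : ι → E₀ := fun i => dm E₀ (extChartAt 𝓘(ℝ, E₀) x₀) (p i).1 (p i).2 with ha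
  set Λ : ι → E₀ →L[ℝ] F := fun i => L (extChartAt 𝓘(ℝ, E₀) x₀ (p i).1) with hΛ
  set a₀ : E₀ := p₀.2 with ha₀
  show Tendsto a l (𝓝 a₀) ↔ Tendsto (fun i => Λ i (a i)) l (𝓝 (dm E₀ e x₀ a₀))
  constructor
  · intro h
    exact ((isBoundedBilinearMap_apply (𝕜 := ℝ) (E := E₀) (F := F)).continuous.tendsto
      (dm E₀ e x₀, a₀)).comp (hLt.prodMk_nhds h)
  · intro h
    obtain ⟨κ, hκ, hlow⟩ := exists_low (dm E₀ e x₀) (hinj x₀)
    have h2 : Tendsto (fun i => ‖Λ i - dm E₀ e x₀‖) l (𝓝 0) := by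
      have := (hLt.sub_const (dm E₀ e x₀)).norm
      rwa [sub_self, norm_zero] at this
    have h3 : Tendsto (fun i => ‖Λ i (a i) - dm E₀ e x₀ a₀‖) l (𝓝 0) := by
      have := (h.sub_const (dm E₀ e x₀ a₀)).norm
      rwa [sub_self, norm_zero] at this
    have h4 : ∀ᶠ i in l, ‖Λ i - dm E₀ e x₀‖ < 1 / (2 * κ) :=
      (tendsto_order.1 h2).2 _ (by positivity)
    rw [tendsto_iff_norm_sub_tendsto_zero]
    have h5 : Tendsto (fun i => 2 * κ * (‖Λ i (a i) - dm E₀ e x₀ a₀‖ +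
        ‖Λ i - dm E₀ e x₀‖ * ‖a₀‖)) l (𝓝 (2 * κ * (0 + 0 * ‖a₀‖))) :=
      (h3.add (h2.mul_const _)).const_mul _
    rw [zero_mul, add_zero, mul_zero] at h5
    refine squeeze_zero' (Eventually.of_forall fun _ => norm_nonneg _) ?_ h5
    filter_upwards [h4] with i hi
    have h6 := hlow (a i - a₀)
    have h7 : dm E₀ e x₀ (a i - a₀) = (Λ i (a i) - dm E₀ e x₀ a₀) -
        (Λ i - dm E₀ e x₀) (a i) := by
      simp only [map_sub, sub_apply]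
      abel
    have h8 := norm_sub_le (Λ i (a i) - dm E₀ e x₀ a₀) ((Λ i - dm E₀ e x₀) (a i))
    rw [← h7] at h8
    have h9 := (Λ i - dm E₀ e x₀).le_opNorm (a i)
    have h10 : ‖a i‖ ≤ ‖a i - a₀‖ + ‖a₀‖ := by
      have := norm_add_le (a i - a₀) a₀
      rwa [sub_add_cancel] at this
    set δ := ‖Λ i - dm E₀ e x₀‖ with hδ
    have hδ0 : 0 ≤ δ := norm_nonneg _
    have h11 : δ * ‖a i‖ ≤ δ * (‖a i - a₀‖ + ‖a₀‖) := mul_le_mul_of_nonneg_left h10 hδ0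
    have h12 : δ * (2 * κ) ≤ 1 := by
      rw [lt_div_iff₀ (by positivity)] at hi
      exact hi.le
    have h13 : δ * (2 * κ) * ‖a i - a₀‖ ≤ 1 * ‖a i - a₀‖ :=
      mul_le_mul_of_nonneg_right h12 (norm_nonneg _)
    have h14 : κ * ‖dm E₀ e x₀ (a i - a₀)‖ ≤ κ * (‖Λ i (a i) - dm E₀ e x₀ a₀‖ +
        δ * (‖a i - a₀‖ + ‖a₀‖)) := mul_le_mul_of_nonneg_left (by linarith) hκ.le
    nlinarith

/-- The map of the tangent bundle into the product is continuous. -/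
theorem continuous_em (e : M → F) (he : ContMDiff 𝓘(ℝ, E₀) 𝓘(ℝ, F) 1 e)
    (hinj : ∀ x, Function.Injective (dm E₀ e x)) :
    Continuous fun p : TangentBundle 𝓘(ℝ, E₀) M => (p.1, dm E₀ e p.1 p.2) := by
  rw [continuous_iff_continuousAt]
  intro p₀
  have h1 := (tendsto_dm e he hinj (l := 𝓝 p₀) (fun p => p) p₀).1 tendsto_id
  exact h1.1.prodMk_nhds h1.2

/-- Limit directions in a chart and in the ambient space. -/
theorem lim_dir (e : M → F) (he : ContMDiff 𝓘(ℝ, E₀) 𝓘(ℝ, F) 1 e) {ι : Type*} {l : Filter ι}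
    {x : M} {y : ι → M} {c : ι → ℝ} (hy : Tendsto y l (𝓝 x)) {v : E₀}
    (h : Tendsto (fun i => c i • (extChartAt 𝓘(ℝ, E₀) x (y i) - extChartAt 𝓘(ℝ, E₀) x x)) l
      (𝓝 v)) : Tendsto (fun i => c i • (e (y i) - e x)) l (𝓝 (dm E₀ e x v)) := by
  have hc := hatMap_contDiffAt e he x (extChartAt 𝓘(ℝ, E₀) x x) (mem_extChartAt_target x)
  have hd : HasFDerivAt (hatMap e x) (dm E₀ e x) (extChartAt 𝓘(ℝ, E₀) x x) := by
    rw [← hat_fderiv e he x]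
    exact (hc.differentiableAt (by norm_num)).hasFDerivAt
  have h1 : Tendsto (fun i => extChartAt 𝓘(ℝ, E₀) x (y i) - extChartAt 𝓘(ℝ, E₀) x x) l (𝓝 0) := by
    have := ((continuousAt_extChartAt (I := 𝓘(ℝ, E₀)) x).tendsto.comp hy).sub_const
      (extChartAt 𝓘(ℝ, E₀) x x)
    rwa [sub_self] at this
  have h2 := (hasFDerivWithinAt_univ.2 hd).lim h1 (Eventually.of_forall fun _ => mem_univ _) h
  refine h2.congr' ?_
  have hev : ∀ᶠ i in l, y i ∈ (extChartAt 𝓘(ℝ, E₀) x).source :=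
    hy (extChartAt_source_mem_nhds x)
  filter_upwards [hev] with i hi
  rw [add_sub_cancel]
  show c i • (e ((extChartAt 𝓘(ℝ, E₀) x).symm (extChartAt 𝓘(ℝ, E₀) x (y i))) -
    e ((extChartAt 𝓘(ℝ, E₀) x).symm (extChartAt 𝓘(ℝ, E₀) x x))) = _
  rw [(extChartAt 𝓘(ℝ, E₀) x).left_inv hi,
    (extChartAt 𝓘(ℝ, E₀) x).left_inv (mem_extChartAt_source x)]

theorem lim_dir' (e : M → F) (he : ContMDiff 𝓘(ℝ, E₀) 𝓘(ℝ, F) 1 e)
    (hinj : ∀ x, Function.Injective (dm E₀ e x)) {ι : Type*} {l : Filter ι}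
    {x : M} {y : ι → M} {c : ι → ℝ} (hy : Tendsto y l (𝓝 x)) {v : E₀}
    (h : Tendsto (fun i => c i • (e (y i) - e x)) l (𝓝 (dm E₀ e x v))) :
    Tendsto (fun i => c i • (extChartAt 𝓘(ℝ, E₀) x (y i) - extChartAt 𝓘(ℝ, E₀) x x)) l
      (𝓝 v) := by
  obtain ⟨κ, hκ, hlow⟩ := exists_low (dm E₀ e x) (hinj x)
  rw [Metric.tendsto_nhds]
  intro θ hθ
  have hv0 := norm_nonneg v
  obtain ⟨r, hr, hr1, hr2, hr3⟩ := hatMap_local e he x (min (1 / (2 * κ)) (θ / (8 * κ * (‖v‖ + 1))))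
    (lt_min (by positivity) (by positivity))
  have h1 : Tendsto (fun i => extChartAt 𝓘(ℝ, E₀) x (y i)) l (𝓝 (extChartAt 𝓘(ℝ, E₀) x x)) :=
    (continuousAt_extChartAt (I := 𝓘(ℝ, E₀)) x).tendsto.comp hy
  have hev : ∀ᶠ i in l, y i ∈ (extChartAt 𝓘(ℝ, E₀) x).source :=
    hy (extChartAt_source_mem_nhds x)
  have hev2 : ∀ᶠ i in l, ‖c i • (e (y i) - e x) - dm E₀ e x v‖ < θ / (8 * κ) := by
    have := (h.sub_const (dm E₀ e x v)).norm
    rw [sub_self, norm_zero] at this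
    exact (tendsto_order.1 this).2 _ (by positivity)
  filter_upwards [h1 (Metric.ball_mem_nhds _ hr), hev, hev2] with i hi1 hi2 hi3
  set ε := min (1 / (2 * κ)) (θ / (8 * κ * (‖v‖ + 1))) with hε
  have hε0 : 0 < ε := lt_min (by positivity) (by positivity)
  have hε1 : ε * (2 * κ) ≤ 1 := by
    have : ε ≤ 1 / (2 * κ) := min_le_left _ _
    rwa [le_div_iff₀ (by positivity)] at this
  have hε2 : ε * (8 * κ * (‖v‖ + 1)) ≤ θ := by
    have : ε ≤ θ / (8 * κ * (‖v‖ + 1)) := min_le_right _ _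
    rwa [le_div_iff₀ (by positivity)] at this
  have h4 := hr3 _ (Metric.mem_ball_self hr) _ hi1
  rw [hat_fderiv e he x] at h4
  set d := extChartAt 𝓘(ℝ, E₀) x (y i) - extChartAt 𝓘(ℝ, E₀) x x with hd
  have e1 : hatMap e x (extChartAt 𝓘(ℝ, E₀) x (y i)) - hatMap e x (extChartAt 𝓘(ℝ, E₀) x x) =
      e (y i) - e x := by
    show e ((extChartAt 𝓘(ℝ, E₀) x).symm (extChartAt 𝓘(ℝ, E₀) x (y i))) -
      e ((extChartAt 𝓘(ℝ, E₀) x).symm (extChartAt 𝓘(ℝ, E₀) x x)) = _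
    rw [(extChartAt 𝓘(ℝ, E₀) x).left_inv hi2,
      (extChartAt 𝓘(ℝ, E₀) x).left_inv (mem_extChartAt_source x)]
  rw [e1] at h4
  rw [dist_eq_norm]
  have h5 := hlow (c i • d - v)
  have h6 : dm E₀ e x (c i • d - v) = (c i • (e (y i) - e x) - dm E₀ e x v) -
      c i • (e (y i) - e x - dm E₀ e x d) := by
    rw [map_sub, map_smul, smul_sub (c i) (e (y i) - e x)]
    abel
  have h7 := norm_sub_le (c i • (e (y i) - e x) - dm E₀ e x v)
    (c i • (e (y i) - e x - dm E₀ e x d))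
  rw [← h6, norm_smul] at h7
  have h8 : ‖c i‖ * ‖e (y i) - e x - dm E₀ e x d‖ ≤ ε * ‖c i • d‖ := by
    rw [norm_smul]
    have := mul_le_mul_of_nonneg_left h4 (norm_nonneg (c i))
    linarith
  have h9 : ‖c i • d‖ ≤ ‖c i • d - v‖ + ‖v‖ := by
    have := norm_add_le (c i • d - v) v
    rwa [sub_add_cancel] at this
  have h10 : ε * ‖c i • d‖ ≤ ε * (‖c i • d - v‖ + ‖v‖) := mul_le_mul_of_nonneg_left h9 hε0.le
  have h11 : κ * ‖dm E₀ e x (c i • d - v)‖ ≤ κ * (θ / (8 * κ) + ε * (‖c i • d - v‖ + ‖v‖)) :=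
    mul_le_mul_of_nonneg_left (by linarith) hκ.le
  have h12 : κ * (θ / (8 * κ)) = θ / 8 := by field_simp
  have h13 : ε * (2 * κ) * ‖c i • d - v‖ ≤ 1 * ‖c i • d - v‖ :=
    mul_le_mul_of_nonneg_right hε1 (norm_nonneg _)
  nlinarith [mul_pos hε0 hκ]

end Pool.Agent.V5helper18.Mb
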