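import Pool.Agent.V5helper18.Mb.H
import Pool.Agent.V5helper18.Mb.Def

/-!
# Fields of tangent subspaces of an embedded manifold
-/

set_option autoImplicit false
set_option linter.unusedSectionVars false

open scoped Manifold ContDiff Topology Bundle
open Set Filter Bundle

namespace Pool.Agent.V5helper18.Mb

open Pool.Agent.H721R2 Pool.Agent.H789R2.AN

variable {E₀ : Type*} [NormedAddCommGroup E₀] [NormedSpace ℝ E₀] [FiniteDimensional ℝ E₀]
  {M : Type*} [MetricSpace M] [ChartedSpace E₀ M] [IsManifold 𝓘(ℝ, E₀) 1 M]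
  {F : Type*} [NormedAddCommGroup F] [InnerProductSpace ℝ F]

/-- The field `V` seen in the ambient space. -/
noncomputable def ambF (e : M → F) (V : ∀ x : M, Submodule ℝ (TangentSpace 𝓘(ℝ, E₀) x)) (x : M) :
    Submodule ℝ F := Submodule.map (dm E₀ e x).toLinearMap (V x)

theorem mem_ambF {e : M → F} {V : ∀ x : M, Submodule ℝ (TangentSpace 𝓘(ℝ, E₀) x)} {x : M}
    {w : F} : w ∈ ambF e V x ↔ ∃ v : E₀, (v : TangentSpace 𝓘(ℝ, E₀) x) ∈ V x ∧ dm E₀ e x v = w :=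
  Iff.rfl

theorem con_of_tangent {e : M → F} (he : ContMDiff 𝓘(ℝ, E₀) 𝓘(ℝ, F) 1 e)
    {V : ∀ x : M, Submodule ℝ (TangentSpace 𝓘(ℝ, E₀) x)} {A : Set M} (hA : TangentTo V A) :
    Con e (ambF e V) A := by
  rintro x hx w ⟨v, hv, rfl⟩ θ hθ t₀ ht₀
  obtain ⟨y, t, hy, ht, hyx, ht0, hlim⟩ := hA x hx v hv
  have h1 : Tendsto (fun n => (t n)⁻¹ • (e (y n) - e x)) atTop (𝓝 (dm E₀ e x v)) :=
    lim_dir e he hyx hlim
  have h2 : Tendsto (fun n => ‖(t n)⁻¹ • (e (y n) - e x) - dm E₀ e x v‖) atTop (𝓝 0) := by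
    have := (h1.sub_const (dm E₀ e x v)).norm
    rwa [sub_self, norm_zero] at this
  obtain ⟨n, hn1, hn2⟩ := (((tendsto_order.1 h2).2 θ hθ).and
    ((tendsto_order.1 ht0).2 t₀ ht₀)).exists
  refine ⟨t n, ht n, hn2.le, y n, hy n, ?_⟩
  have e1 : e (y n) - e x - t n • dm E₀ e x v =
      t n • ((t n)⁻¹ • (e (y n) - e x) - dm E₀ e x v) := by
    rw [smul_sub, smul_inv_smul₀ (ht n).ne']
  show ‖e (y n) - e x - t n • dm E₀ e x v‖ ≤ θ * t n
  rw [e1, norm_smul, Real.norm_eq_abs, abs_of_pos (ht n), mul_comm θ]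
  exact mul_le_mul_of_nonneg_left hn1.le (ht n).le

theorem tangent_of_con {e : M → F} (hiso : ∀ x y, dist x y = ‖e x - e y‖)
    (he : ContMDiff 𝓘(ℝ, E₀) 𝓘(ℝ, F) 1 e) (hinj : ∀ x, Function.Injective (dm E₀ e x))
    {V : ∀ x : M, Submodule ℝ (TangentSpace 𝓘(ℝ, E₀) x)} {A : Set M}
    (hA : Con e (ambF e V) A) : TangentTo V A := by
  intro x hx v hv
  have h0 := tendsto_one_div_add_atTop_nhds_zero_nat (𝕜 := ℝ)
  have h1 := fun n : ℕ => hA x hx (dm E₀ e x v) ⟨v, hv, rfl⟩ (1 / ((n : ℝ) + 1)) (by positivity)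
    (1 / ((n : ℝ) + 1)) (by positivity)
  choose t ht ht2 y hy hyt using h1
  have htl : Tendsto t atTop (𝓝 0) := squeeze_zero (fun n => (ht n).le) ht2 h0
  have h2 : Tendsto (fun n => (t n)⁻¹ • (e (y n) - e x)) atTop (𝓝 (dm E₀ e x v)) := by
    rw [tendsto_iff_norm_sub_tendsto_zero]
    refine squeeze_zero (fun _ => norm_nonneg _) (fun n => ?_) h0
    have e1 : (t n)⁻¹ • (e (y n) - e x) - dm E₀ e x v =
        (t n)⁻¹ • (e (y n) - e x - t n • dm E₀ e x v) := by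
      rw [smul_sub (t n)⁻¹ (e (y n) - e x), inv_smul_smul₀ (ht n).ne']
    rw [e1, norm_smul, norm_inv, Real.norm_eq_abs, abs_of_pos (ht n), inv_mul_le_iff₀ (ht n)]
    exact (hyt n).trans (le_of_eq (mul_comm _ _))
  have h3 : Tendsto y atTop (𝓝 x) := by
    rw [tendsto_iff_dist_tendsto_zero]
    have h4 : Tendsto (fun n => t n * (1 + ‖dm E₀ e x v‖)) atTop (𝓝 0) := by
      have := htl.mul_const (1 + ‖dm E₀ e x v‖)
      rwa [zero_mul] at this
    refine squeeze_zero (fun _ => dist_nonneg) (fun n => ?_) h4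
    rw [hiso]
    have h5 := norm_add_le (e (y n) - e x - t n • dm E₀ e x v) (t n • dm E₀ e x v)
    rw [sub_add_cancel, norm_smul, Real.norm_eq_abs, abs_of_pos (ht n)] at h5
    have h6 := hyt n
    have h7 : 1 / ((n : ℝ) + 1) * t n ≤ 1 * t n := by
      apply mul_le_mul_of_nonneg_right _ (ht n).le
      rw [div_le_one (by positivity)]
      linarith [n.cast_nonneg (α := ℝ)]
    linarith
  exact ⟨y, t, hy, ht, h3, htl, lim_dir' e he hinj h3 h2⟩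

section compact

variable [CompactSpace M] [FiniteDimensional ℝ F]

/-- vectors that are limits of tangent vectors are tangent -/
theorem range_closed {e : M → F} (he : ContMDiff 𝓘(ℝ, E₀) 𝓘(ℝ, F) 1 e)
    (hinj : ∀ x, Function.Injective (dm E₀ e x)) {x : ℕ → M} {w : ℕ → E₀} {x₀ : M} {ω₀ : F}
    (hx : Tendsto x atTop (𝓝 x₀))
    (hw : Tendsto (fun n => dm E₀ e (x n) (w n)) atTop (𝓝 ω₀)) : ∃ w₀, dm E₀ e x₀ w₀ = ω₀ := by
  have hc : IsClosed ((LinearMap.range (dm E₀ e x₀).toLinearMap : Submodule ℝ F) : Set F) :=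
    Submodule.closed_of_finiteDimensional _
  have h1 : ω₀ ∈ closure ((LinearMap.range (dm E₀ e x₀).toLinearMap : Submodule ℝ F) : Set F) := by
    rw [Metric.mem_closure_iff]
    intro θ hθ
    obtain ⟨-, h2⟩ := local_all e he hinj e he x₀
    obtain ⟨W, hW, r, hr, -, -, h3⟩ := h2 (θ / (2 * (‖ω₀‖ + 1))) (by positivity)
    have h4 : ∀ᶠ n in atTop, ‖dm E₀ e (x n) (w n)‖ < ‖ω₀‖ + 1 :=
      (tendsto_order.1 hw.norm).2 _ (by linarith)
    have h5 : ∀ᶠ n in atTop, dist (dm E₀ e (x n) (w n)) ω₀ < θ / 2 :=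
      (tendsto_order.1 (tendsto_iff_dist_tendsto_zero.1 hw)).2 _ (by positivity)
    have h5' : ∀ᶠ n in atTop, x n ∈ W := hx hW
    obtain ⟨n, hn1, hn2, hn3⟩ := (h5'.and (h4.and h5)).exists
    obtain ⟨v, hv, -⟩ := h3 (x n) hn1 x₀ (mem_of_mem_nhds hW) (w n)
    refine ⟨dm E₀ e x₀ v, ⟨v, rfl⟩, ?_⟩
    have h6 := dist_triangle_left ω₀ (dm E₀ e x₀ v) (dm E₀ e (x n) (w n))
    rw [dist_eq_norm (dm E₀ e (x n) (w n)) (dm E₀ e x₀ v)] at h6
    have h7 : θ / (2 * (‖ω₀‖ + 1)) * ‖dm E₀ e (x n) (w n)‖ ≤ θ / 2 := by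
      rw [div_mul_eq_mul_div, div_le_div_iff₀ (by positivity) (by positivity)]
      nlinarith
    linarith
  rw [hc.closure_eq] at h1
  exact h1

theorem amb_of_closed {e : M → F} (hiso : ∀ x y, dist x y = ‖e x - e y‖)
    (he : ContMDiff 𝓘(ℝ, E₀) 𝓘(ℝ, F) 1 e) (hinj : ∀ x, Function.Injective (dm E₀ e x))
    {V : ∀ x : M, Submodule ℝ (TangentSpace 𝓘(ℝ, E₀) x)} (hV : ClosedField V) :
    Amb e (ambF (E₀ := E₀) e (fun _ => ⊤)) (ambF e V) where
  iso := hiso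
  T1 := fun η hη => by
    apply exists_uniform_radius
    intro x₀
    obtain ⟨-, h2⟩ := local_all e he hinj e he x₀
    obtain ⟨W, hW, r, hr, h3, -, -⟩ := h2 η hη
    refine ⟨W, hW, fun x hx y hy => ?_⟩
    obtain ⟨v, hv, -⟩ := h3 x hx y hy
    refine ⟨dm E₀ e x v, ⟨v, trivial, rfl⟩, ?_⟩
    rwa [dist_comm, hiso]
  T2 := fun η hη => by
    apply exists_uniform_radius
    intro x₀
    obtain ⟨-, h2⟩ := local_all e he hinj e he x₀
    obtain ⟨W, hW, r, hr, -, -, h3⟩ := h2 η hη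
    refine ⟨W, hW, fun x hx y hy => ?_⟩
    rintro w ⟨v, -, rfl⟩
    obtain ⟨v', hv', -⟩ := h3 x hx y hy v
    exact ⟨dm E₀ e y v', ⟨v', trivial, rfl⟩, hv'⟩
  le := fun x => Submodule.map_mono le_top
  cl := fun x w x₀ ω₀ hw hx hlim => by
    choose v hv hvw using hw
    have hlim' : Tendsto (fun n => dm E₀ e (x n) (v n)) atTop (𝓝 ω₀) :=
      hlim.congr fun n => (hvw n).symm
    obtain ⟨w₀, rfl⟩ := range_closed he hinj hx hlim'
    refine ⟨w₀, ?_, rfl⟩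
    have h1 : Tendsto (fun n => (⟨x n, v n⟩ : TangentBundle 𝓘(ℝ, E₀) M)) atTop
        (𝓝 ⟨x₀, w₀⟩) := (tendsto_dm e he hinj _ _).2 ⟨hx, hlim'⟩
    exact hV.mem_of_tendsto h1 (Eventually.of_forall fun n => hv n)

/-- sequentially closed ambient fields come from closed fields -/
theorem closedField_of_seq {e : M → F} (he : ContMDiff 𝓘(ℝ, E₀) 𝓘(ℝ, F) 1 e)
    (hinj : ∀ x, Function.Injective (dm E₀ e x))
    {V : ∀ x : M, Submodule ℝ (TangentSpace 𝓘(ℝ, E₀) x)}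
    (h : ∀ (x : ℕ → M) (w : ℕ → F) (x₀ : M) (w₀ : F), (∀ n, w n ∈ ambF e V (x n)) →
      Tendsto x atTop (𝓝 x₀) → Tendsto w atTop (𝓝 w₀) → w₀ ∈ ambF e V x₀) : ClosedField V := by
  have h1 : IsClosed {q : M × F | q.2 ∈ ambF e V q.1} := by
    apply IsSeqClosed.isClosed
    intro q q₀ hq hlim
    exact h (fun n => (q n).1) (fun n => (q n).2) q₀.1 q₀.2 hq
      ((continuous_fst.tendsto _).comp hlim) ((continuous_snd.tendsto _).comp hlim)
  have h2 := h1.preimage (continuous_em e he hinj)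
  have h3 : {p : TangentBundle 𝓘(ℝ, E₀) M | p.2 ∈ V p.1} =
      (fun p : TangentBundle 𝓘(ℝ, E₀) M => (p.1, dm E₀ e p.1 p.2)) ⁻¹'
        {q : M × F | q.2 ∈ ambF e V q.1} := by
    ext p
    constructor
    · intro hp
      exact ⟨p.2, hp, rfl⟩
    · rintro ⟨v, hv, hvp⟩
      have h4 : (v : TangentSpace 𝓘(ℝ, E₀) p.1) = p.2 := hinj p.1 hvp
      show p.2 ∈ V p.1
      rw [← h4]
      exact hv
  show IsClosed {p : TangentBundle 𝓘(ℝ, E₀) M | p.2 ∈ V p.1}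
  rw [h3]
  exact h2

/-- an open set of tangent vectors containing the nonzero vectors of a closed field contains all
vectors at a small angle with the field -/
theorem exists_delta {e : M → F} (he : ContMDiff 𝓘(ℝ, E₀) 𝓘(ℝ, F) 1 e)
    (hinj : ∀ x, Function.Injective (dm E₀ e x))
    {V : ∀ x : M, Submodule ℝ (TangentSpace 𝓘(ℝ, E₀) x)} (hV : ClosedField V)
    {D : Set (TangentBundle 𝓘(ℝ, E₀) M)} (hD : IsOpen D) (hVD : NonzeroIn V D) :
    ∃ δ > 0, δ ≤ 1 ∧ ∀ V' : ∀ x : M, Submodule ℝ (TangentSpace 𝓘(ℝ, E₀) x), NonzeroIn V' Dᶜ →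
      ∀ z, ∀ s ∈ ambF e V' z, ∀ x, dist z x < δ → ∀ w ∈ ambF e V x, δ * ‖s‖ ≤ ‖s - w‖ := by
  have key : ∃ δ > 0, δ ≤ 1 ∧ ∀ (z : M) (v : E₀), (⟨z, v⟩ : TangentBundle 𝓘(ℝ, E₀) M) ∉ D →
      ‖dm E₀ e z v‖ = 1 → ∀ x, dist z x < δ → ∀ w ∈ ambF e V x, δ ≤ ‖dm E₀ e z v - w‖ := by
    by_contra hcon
    push Not at hcon
    have h0 := tendsto_one_div_add_atTop_nhds_zero_nat (𝕜 := ℝ)
    have h1 := fun n : ℕ => hcon (1 / ((n : ℝ) + 1)) (by positivity) (by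
      rw [div_le_one (by positivity)]
      linarith [n.cast_nonneg (α := ℝ)])
    choose z v hzv hv1 x hzx w hw hwv using h1
    have hcomp : IsCompact ((univ : Set M) ×ˢ (Metric.closedBall (0 : F) 1)) :=
      isCompact_univ.prod (isCompact_closedBall _ _)
    obtain ⟨⟨z₀, ω₀⟩, -, φ, hφ, hl⟩ := hcomp.tendsto_subseq
      (x := fun n => (z n, dm E₀ e (z n) (v n))) (fun n => ⟨mem_univ _, by
        rw [mem_closedBall_zero_iff]; exact (hv1 n).le⟩)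
    have lz : Tendsto (fun n => z (φ n)) atTop (𝓝 z₀) := (continuous_fst.tendsto _).comp hl
    have lv : Tendsto (fun n => dm E₀ e (z (φ n)) (v (φ n))) atTop (𝓝 ω₀) :=
      (continuous_snd.tendsto _).comp hl
    have hω : ‖ω₀‖ = 1 :=
      tendsto_nhds_unique lv.norm (tendsto_const_nhds.congr fun n => (hv1 _).symm)
    have lx : Tendsto (fun n => x (φ n)) atTop (𝓝 z₀) := by
      rw [tendsto_iff_dist_tendsto_zero] at lz ⊢
      have h2 := (h0.comp hφ.tendsto_atTop).add lz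
      rw [add_zero] at h2
      refine squeeze_zero (fun _ => dist_nonneg) (fun n => ?_) h2
      have h3 := dist_triangle_left (x (φ n)) z₀ (z (φ n))
      have h4 := (hzx (φ n)).le
      show _ ≤ 1 / (((φ n : ℕ) : ℝ) + 1) + dist (z (φ n)) z₀
      linarith
    have lw : Tendsto (fun n => w (φ n)) atTop (𝓝 ω₀) := by
      rw [tendsto_iff_dist_tendsto_zero] at lv ⊢
      have h2 := (h0.comp hφ.tendsto_atTop).add lv
      rw [add_zero] at h2
      refine squeeze_zero (fun _ => dist_nonneg) (fun n => ?_) h2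
      have h3 := dist_triangle_left (w (φ n)) ω₀ (dm E₀ e (z (φ n)) (v (φ n)))
      have h4 := (hwv (φ n)).le
      rw [← dist_eq_norm] at h4
      show _ ≤ 1 / (((φ n : ℕ) : ℝ) + 1) + dist (dm E₀ e (z (φ n)) (v (φ n))) ω₀
      linarith
    choose u hu huw using hw
    obtain ⟨w₀, rfl⟩ := range_closed he hinj lz lv
    have hlu : Tendsto (fun n => dm E₀ e (x (φ n)) (u (φ n))) atTop (𝓝 (dm E₀ e z₀ w₀)) :=
      lw.congr fun n => (huw _).symm
    have c1 : Tendsto (fun n => (⟨z (φ n), v (φ n)⟩ : TangentBundle 𝓘(ℝ, E₀) M)) atTop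
        (𝓝 ⟨z₀, w₀⟩) := (tendsto_dm e he hinj _ _).2 ⟨lz, lv⟩
    have c2 : Tendsto (fun n => (⟨x (φ n), u (φ n)⟩ : TangentBundle 𝓘(ℝ, E₀) M)) atTop
        (𝓝 ⟨z₀, w₀⟩) := (tendsto_dm e he hinj _ _).2 ⟨lx, hlu⟩
    have d1 : (⟨z₀, w₀⟩ : TangentBundle 𝓘(ℝ, E₀) M) ∈ Dᶜ :=
      hD.isClosed_compl.mem_of_tendsto c1 (Eventually.of_forall fun n => hzv _)
    have d2 : (w₀ : TangentSpace 𝓘(ℝ, E₀) z₀) ∈ V z₀ :=
      hV.mem_of_tendsto c2 (Eventually.of_forall fun n => hu _)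
    refine d1 (hVD z₀ w₀ d2 ?_)
    intro h6
    have h7 : dm E₀ e z₀ w₀ = 0 := by
      have h8 : w₀ = (0 : E₀) := h6
      rw [h8]
      exact map_zero _
    rw [h7, norm_zero] at hω
    exact zero_ne_one hω
  obtain ⟨δ, hδ, hδ1, h1⟩ := key
  refine ⟨δ, hδ, hδ1, fun V' hV' z => ?_⟩
  rintro s ⟨v, hv, rfl⟩ x hzx w hw
  show δ * ‖dm E₀ e z v‖ ≤ ‖dm E₀ e z v - w‖
  rcases eq_or_ne (dm E₀ e z v) 0 with h0 | h0
  · rw [h0, norm_zero, mul_zero]
    exact norm_nonneg _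
  have hn : 0 < ‖dm E₀ e z v‖ := norm_pos_iff.2 h0
  set c := ‖dm E₀ e z v‖⁻¹ with hc
  have hc0 : 0 < c := inv_pos.2 hn
  have h2 : dm E₀ e z (c • v) = c • dm E₀ e z v := map_smul _ _ _
  have h3 := h1 z (c • v) (hV' z _ (Submodule.smul_mem _ c hv) (by
    intro h4
    have h5 : dm E₀ e z (c • v) = 0 := by
      have : (c • v : E₀) = 0 := h4
      rw [this, map_zero]
    rw [h2, smul_eq_zero] at h5
    exact h5.elim hc0.ne' h0)) (by
    rw [h2, norm_smul, Real.norm_eq_abs, abs_of_pos hc0, hc, inv_mul_cancel₀ hn.ne']) x hzx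
    (c • w) (Submodule.smul_mem _ _ hw)
  rw [h2, ← smul_sub, norm_smul, Real.norm_eq_abs, abs_of_pos hc0, hc, le_inv_mul_iff₀ hn] at h3
  linarith

/-- an open set of tangent vectors at a small angle with a field -/
theorem exists_cone {e : M → F} (he : ContMDiff 𝓘(ℝ, E₀) 𝓘(ℝ, F) 1 e)
    (hinj : ∀ x, Function.Injective (dm E₀ e x))
    (V : ∀ x : M, Submodule ℝ (TangentSpace 𝓘(ℝ, E₀) x)) {ε : ℝ} (hε : 0 < ε) :
    ∃ C : Set (TangentBundle 𝓘(ℝ, E₀) M), IsOpen C ∧ NonzeroIn V C ∧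
      ∀ V' : ∀ x : M, Submodule ℝ (TangentSpace 𝓘(ℝ, E₀) x), NonzeroIn V' C →
        ∀ z, ∀ u ∈ ambF e V' z, ∃ x, ∃ w ∈ ambF e V x, dist z x ≤ ε ∧ ‖u - w‖ ≤ ε * ‖u‖ := by
  have h1 : IsOpen {q : M × F | ∃ x, ∃ w ∈ ambF e V x, dist q.1 x < ε ∧
      ‖q.2 - w‖ < ε * ‖q.2‖} := by
    have h2 : {q : M × F | ∃ x, ∃ w ∈ ambF e V x, dist q.1 x < ε ∧ ‖q.2 - w‖ < ε * ‖q.2‖} =
        ⋃ (x : M) (w : F) (_ : w ∈ ambF e V x), {q : M × F | dist q.1 x < ε} ∩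
          {q : M × F | ‖q.2 - w‖ < ε * ‖q.2‖} := by
      ext q
      simp only [mem_iUnion, mem_inter_iff, exists_prop]
      rfl
    rw [h2]
    refine isOpen_iUnion fun x => isOpen_iUnion fun w => isOpen_iUnion fun _ =>
      (isOpen_lt (by fun_prop) (by fun_prop)).inter (isOpen_lt (by fun_prop) (by fun_prop))
  refine ⟨_, h1.preimage (continuous_em e he hinj), ?_, ?_⟩
  · intro x v hv hv0
    refine ⟨x, dm E₀ e x v, ⟨v, hv, rfl⟩, ?_, ?_⟩
    · show dist x x < ε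
      rwa [dist_self]
    · show ‖dm E₀ e x v - dm E₀ e x v‖ < ε * ‖dm E₀ e x v‖
      rw [sub_self, norm_zero]
      have : dm E₀ e x v ≠ 0 := fun h => hv0 (hinj x (h.trans (map_zero _).symm))
      have := norm_pos_iff.2 this
      positivity
  · intro V' hV' z u hu
    obtain ⟨v, hv, rfl⟩ := hu
    by_cases hv0 : (v : TangentSpace 𝓘(ℝ, E₀) z) = 0
    · subst hv0
      refine ⟨z, 0, Submodule.zero_mem _, by rw [dist_self]; exact hε.le, ?_⟩
      show ‖dm E₀ e z (0 : E₀) - 0‖ ≤ ε * ‖dm E₀ e z (0 : E₀)‖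
      have : dm E₀ e z (0 : E₀) = 0 := map_zero _
      rw [this]
      simp
    · obtain ⟨x, w, hw, h3, h4⟩ := hV' z v hv hv0
      exact ⟨x, w, hw, h3.le, h4.le⟩

end compact

end Pool.Agent.V5helper18.Mb
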