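import Pool.Agent.V5helper18.Mb.I

/-!
# Anosov diffeomorphisms: transitivity and minimality of the unstable field
-/

set_option autoImplicit false
set_option linter.unusedSectionVars false

open scoped Manifold ContDiff Topology Bundle
open Set Filter Bundle

namespace Pool.Agent.V5helper18.Mb

open Pool.Agent.H721R2 Pool.Agent.H789R2.AN Pool.Agent.Y331.EP

section symm

variable {E : Type*} [NormedAddCommGroup E] [NormedSpace ℝ E]
  {M : Type*} [TopologicalSpace M] [ChartedSpace E M] [IsManifold 𝓘(ℝ, E) 1 M]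

theorem invField_symm (f : Diffeomorph 𝓘(ℝ, E) 𝓘(ℝ, E) M M 1)
    (V : ∀ x : M, Submodule ℝ (TangentSpace 𝓘(ℝ, E) x)) (h : InvariantField f V) :
    InvariantField f.symm V := by
  intro x
  have h1 : ∀ y : M, (V y).map (mfderiv 𝓘(ℝ, E) 𝓘(ℝ, E) f y).toLinearMap = V (f y) := h
  have key : ∀ y : M, (V (f y)).map (mfderiv 𝓘(ℝ, E) 𝓘(ℝ, E) f.symm (f y)).toLinearMap =
      (V y : Submodule ℝ E) := by
    intro y
    have hc : (mfderiv 𝓘(ℝ, E) 𝓘(ℝ, E) f.symm (f y)).comp (mfderiv 𝓘(ℝ, E) 𝓘(ℝ, E) f y) =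
        ContinuousLinearMap.id ℝ (TangentSpace 𝓘(ℝ, E) y) := by
      have e1 := mfderiv_comp y (I := 𝓘(ℝ, E)) (I' := 𝓘(ℝ, E)) (I'' := 𝓘(ℝ, E))
        (g := f.symm) (f := f)
        ((f.symm.contMDiff).mdifferentiableAt (by norm_num))
        ((f.contMDiff).mdifferentiableAt (by norm_num))
      have e2 : (f.symm : M → M) ∘ (f : M → M) = id := by
        funext z
        exact f.symm_apply_apply z
      rw [e2, mfderiv_id] at e1
      exact e1.symm
    have e3 : ∀ v : E, (mfderiv 𝓘(ℝ, E) 𝓘(ℝ, E) f.symm (f y))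
        ((mfderiv 𝓘(ℝ, E) 𝓘(ℝ, E) f y) v) = v := fun v =>
      congrArg (fun L : E →L[ℝ] E => L v) hc
    rw [← h1 y]
    ext v
    constructor
    · rintro ⟨w, ⟨z, hz, rfl⟩, rfl⟩
      have e4 := e3 z
      change (mfderiv 𝓘(ℝ, E) 𝓘(ℝ, E) f.symm (f y))
        ((mfderiv 𝓘(ℝ, E) 𝓘(ℝ, E) f y) z) ∈ _
      rw [e4]
      exact hz
    · intro hv
      exact ⟨(mfderiv 𝓘(ℝ, E) 𝓘(ℝ, E) f y) v, ⟨v, hv, rfl⟩, e3 v⟩
  have h2 := key (f.symm x)
  rw [f.apply_symm_apply] at h2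
  exact h2

theorem anosov_symm (f : Diffeomorph 𝓘(ℝ, E) 𝓘(ℝ, E) M M 1)
    (Es Eu : ∀ x : M, Submodule ℝ (TangentSpace 𝓘(ℝ, E) x)) (h : IsAnosov f Es Eu) :
    IsAnosov f.symm Eu Es where
  isCompl := fun x => (h.isCompl x).symm
  map_s := invField_symm f Eu h.map_u
  map_u := invField_symm f Es h.map_s
  rates := by
    obtain ⟨N, C, l, hN, hC, hl0, hl1, h1, h2⟩ := h.rates
    exact ⟨N, C, l, hN, hC, hl0, hl1, h2, h1⟩

theorem transitive_symm (f : M ≃ₜ M) (h : TopTransitive f.symm) : TopTransitive f := by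
  intro U V hU hUn hV hVn
  obtain ⟨n, y, ⟨x, hx, hxy⟩, hy⟩ := h V U hV hVn hU hUn
  refine ⟨n, x, ⟨y, hy, ?_⟩, hx⟩
  rw [← hxy]
  exact (Function.LeftInverse.iterate f.apply_symm_apply n) x

end symm

variable {E : Type*} [NormedAddCommGroup E] [NormedSpace ℝ E] [FiniteDimensional ℝ E]
  {M : Type*} [TopologicalSpace M] [T2Space M] [CompactSpace M]
  [ChartedSpace E M] [IsManifold 𝓘(ℝ, E) ∞ M]

/-- The unstable field of an Anosov diffeomorphism is closed. -/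
theorem closed_u (f : Diffeomorph 𝓘(ℝ, E) 𝓘(ℝ, E) M M 1)
    (Es Eu : ∀ x : M, Submodule ℝ (TangentSpace 𝓘(ℝ, E) x)) (hf : IsAnosov f Es Eu) :
    ClosedField Eu := by
  obtain ⟨m, e, he, hemb, hinj⟩ := exists_embedding_euclidean_of_compact (I := 𝓘(ℝ, E)) (M := M)
  let _ : MetricSpace M := hemb.isEmbedding.comapMetricSpace e
  have hiso : ∀ x y : M, dist x y = ‖e x - e y‖ := fun x y => dist_eq_norm (e x) (e y)
  have he1 : ContMDiff 𝓘(ℝ, E) (𝓡 m) 1 e := he.of_le (by simp)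
  obtain ⟨n, S, hn, hg, hSe, hVs, hVu⟩ :=
    Pool.Agent.Y330.G.exists_sys_pos hiso he1 hinj f Es Eu hf 1
  refine closedField_of_seq he1 hinj fun x w x₀ w₀ hw hx hlim => ?_
  have hc : IsClosed ((ambF e Eu x₀ : Submodule ℝ _) : Set (EuclideanSpace ℝ (Fin m))) :=
    Submodule.closed_of_finiteDimensional _
  have h1 : w₀ ∈ closure ((ambF e Eu x₀ : Submodule ℝ _) : Set (EuclideanSpace ℝ (Fin m))) := by
    rw [Metric.mem_closure_iff]
    intro θ hθ
    obtain ⟨r, hr, h3⟩ := S.A3' (θ / (2 * (‖w₀‖ + 1))) (by positivity)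
    have h4 : ∀ᶠ n in atTop, ‖w n‖ < ‖w₀‖ + 1 :=
      (tendsto_order.1 hlim.norm).2 _ (by linarith)
    have h5 : ∀ᶠ n in atTop, dist (w n) w₀ < θ / 2 :=
      (tendsto_order.1 (tendsto_iff_dist_tendsto_zero.1 hlim)).2 _ (by positivity)
    have h6 : ∀ᶠ n in atTop, dist (x n) x₀ < r :=
      (tendsto_order.1 (tendsto_iff_dist_tendsto_zero.1 hx)).2 _ hr
    obtain ⟨n, hn1, hn2, hn3⟩ := (h6.and (h4.and h5)).exists
    obtain ⟨u, hu, hu2⟩ := h3 (x n) x₀ hn1 (w n) (by rw [hVu]; exact hw n)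
    refine ⟨u, by rw [hVu] at hu; exact hu, ?_⟩
    have h7 := dist_triangle_left w₀ u (w n)
    rw [dist_eq_norm (w n) u] at h7
    have h8 : θ / (2 * (‖w₀‖ + 1)) * ‖w n‖ ≤ θ / 2 := by
      rw [div_mul_eq_mul_div, div_le_div_iff₀ (by positivity) (by positivity)]
      nlinarith
    linarith
  rw [hc.closure_eq] at h1
  exact h1

/-- Transitive Anosov diffeomorphisms have minimal unstable fields. -/
theorem min_of_trans [ConnectedSpace M] (f : Diffeomorph 𝓘(ℝ, E) 𝓘(ℝ, E) M M 1)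
    (Es Eu : ∀ x : M, Submodule ℝ (TangentSpace 𝓘(ℝ, E) x)) (hf : IsAnosov f Es Eu)
    (hT : TopTransitive f) : MinimalField Eu := by
  obtain ⟨m, e, he, hemb, hinj⟩ := exists_embedding_euclidean_of_compact (I := 𝓘(ℝ, E)) (M := M)
  let _ : MetricSpace M := hemb.isEmbedding.comapMetricSpace e
  have hiso : ∀ x y : M, dist x y = ‖e x - e y‖ := fun x y => dist_eq_norm (e x) (e y)
  have he1 : ContMDiff 𝓘(ℝ, E) (𝓡 m) 1 e := he.of_le (by simp)
  obtain ⟨n, S, hn, hg, hSe, hVs, hVu⟩ :=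
    Pool.Agent.Y330.G.exists_sys_pos hiso he1 hinj f Es Eu hf 1
  obtain ⟨ef, hE⟩ := ex_of_expansive (Pool.Agent.TH289.L.expansive_of_anosov f Es Eu hf)
  intro A hAc hAn hA
  have hcon := con_of_tangent he1 hA
  refine univ_of_con hE (man_shad f Es Eu hf) (show TT f.toHomeomorph from hT) S hn hg hAc hAn ?_
  rw [hSe]
  have h1 : S.Vu = ambF e Eu := funext hVu
  rw [h1]
  exact hcon

/-- Anosov diffeomorphisms with minimal unstable fields are transitive. -/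
theorem trans_of_min (f : Diffeomorph 𝓘(ℝ, E) 𝓘(ℝ, E) M M 1)
    (Es Eu : ∀ x : M, Submodule ℝ (TangentSpace 𝓘(ℝ, E) x)) (hf : IsAnosov f Es Eu)
    (hm : MinimalField Eu) : TopTransitive f := by
  obtain ⟨m, e, he, hemb, hinj⟩ := exists_embedding_euclidean_of_compact (I := 𝓘(ℝ, E)) (M := M)
  let _ : MetricSpace M := hemb.isEmbedding.comapMetricSpace e
  have hiso : ∀ x y : M, dist x y = ‖e x - e y‖ := fun x y => dist_eq_norm (e x) (e y)
  have he1 : ContMDiff 𝓘(ℝ, E) (𝓡 m) 1 e := he.of_le (by simp)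
  obtain ⟨n, S, hn, hg, hSe, hVs, hVu⟩ :=
    Pool.Agent.Y330.G.exists_sys_pos hiso he1 hinj f Es Eu hf 1
  refine tt_of_min (f := f.toHomeomorph) S hg fun A hAc hAn hA => ?_
  rw [hSe] at hA
  have h1 : S.Vu = ambF e Eu := funext hVu
  rw [h1] at hA
  exact hm A hAc hAn (tangent_of_con hiso he1 hinj hA.con)

/-- Fields close to a minimal field. -/
theorem trans_of_near (V : ∀ x : M, Submodule ℝ (TangentSpace 𝓘(ℝ, E) x)) (hV : ClosedField V)
    (hm : MinimalField V) (D : Set (TangentBundle 𝓘(ℝ, E) M)) (hD : IsOpen D)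
    (hVD : NonzeroIn V D) :
    ∃ C : Set (TangentBundle 𝓘(ℝ, E) M), IsOpen C ∧ NonzeroIn V C ∧
      ∀ (f : Diffeomorph 𝓘(ℝ, E) 𝓘(ℝ, E) M M 1)
        (Es Eu : ∀ x : M, Submodule ℝ (TangentSpace 𝓘(ℝ, E) x)), IsAnosov f Es Eu →
        (NonzeroIn Eu C ∧ NonzeroIn Es Dᶜ) ∨ (NonzeroIn Es C ∧ NonzeroIn Eu Dᶜ) →
        TopTransitive f := by
  obtain ⟨m, e, he, hemb, hinj⟩ := exists_embedding_euclidean_of_compact (I := 𝓘(ℝ, E)) (M := M)
  let _ : MetricSpace M := hemb.isEmbedding.comapMetricSpace e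
  have hiso : ∀ x y : M, dist x y = ‖e x - e y‖ := fun x y => dist_eq_norm (e x) (e y)
  have he1 : ContMDiff 𝓘(ℝ, E) (𝓡 m) 1 e := he.of_le (by simp)
  obtain ⟨δ, hδ, hδ1, hav⟩ := exists_delta he1 hinj hV hD hVD
  obtain ⟨ε, hε, hmeet⟩ := abs_meet (amb_of_closed hiso he1 hinj hV) hδ hδ1
    (fun A hAc hAn hA => hm A hAc hAn (tangent_of_con hiso he1 hinj hA.con))
  obtain ⟨C, hC, hVC, hcl⟩ := exists_cone he1 hinj V hε
  refine ⟨C, hC, hVC, fun f Es Eu hf h => ?_⟩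
  obtain ⟨n, S, hn, hg, hSe, hVs, hVu⟩ :=
    Pool.Agent.Y330.G.exists_sys_pos hiso he1 hinj f Es Eu hf 1
  have hVs' : ∀ x, S.Vs x = ambF e Es x := hVs
  have hVu' : ∀ x, S.Vu x = ambF e Eu x := hVu
  have hsup : ∀ x, S.Vs x ⊔ S.Vu x = ambF (E₀ := E) e (fun _ => ⊤) x := fun x => by
    have h1 : Es x ⊔ Eu x = ⊤ := (hf.isCompl x).sup_eq_top
    rw [hVs, hVu]
    show Submodule.map (dm E e x).toLinearMap (Es x) ⊔ Submodule.map (dm E e x).toLinearMap (Eu x) =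
      Submodule.map (dm E e x).toLinearMap ⊤
    rw [← Submodule.map_sup]
    congr 1
  rcases h with ⟨h1, h2⟩ | ⟨h1, h2⟩
  · have hnear : Near e (ambF (E₀ := E) e (fun _ => ⊤)) (ambF e V) δ ε S :=
      { eS := fun x => by rw [hSe]
        sup := hsup
        av := fun z s hs => hav Es h2 z s (by rw [hVs'] at hs; exact hs)
        cl := fun z u hu => hcl Eu h1 z u (by rw [hVu'] at hu; exact hu) }
    exact tt_of_meet (f := f.toHomeomorph) S hg (hmeet S hnear)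
  · have hnear : Near e (ambF (E₀ := E) e (fun _ => ⊤)) (ambF e V) δ ε S.symm :=
      { eS := fun x => by
          show S.e x = e x
          rw [hSe]
        sup := fun x => by
          show S.Vu x ⊔ S.Vs x = _
          rw [sup_comm]
          exact hsup x
        av := fun z s hs => hav Eu h2 z s (by
          have hs' : s ∈ S.Vu z := hs
          rw [hVu'] at hs'
          exact hs')
        cl := fun z u hu => hcl Es h1 z u (by
          have hu' : u ∈ S.Vs z := hu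
          rw [hVs'] at hu'
          exact hu') }
    refine tt_of_meet (f := f.toHomeomorph) S hg fun A B hAc hAn hBc hBn hA hB => ?_
    rw [inter_comm]
    exact hmeet S.symm hnear B A hBc hBn hAc hAn hB hA

end Pool.Agent.V5helper18.Mb
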